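import Pool.Agent.H87.DR.Span

/-!
# Derived sets, module Meas: substitutions which are injective on the differences of exponents
-/

set_option autoImplicit false

open Finset Filter Topology MeasureTheory

namespace Pool.Agent.H87.DR

open Pool.Agent.H87.MM Pool.Agent.H87.BZ

variable {n d : ℕ}

/-- support in a subspace -/
def InW (W : Submodule ℚ (Fin d → ℚ)) (c : AddMonoidAlgebra ℂ (Fin d → ℤ)) : Prop :=
  ∀ x, c.coeff x ≠ 0 → cq d x ∈ W

theorem InW_add {W : Submodule ℚ (Fin d → ℚ)} {c c' : AddMonoidAlgebra ℂ (Fin d → ℤ)}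
    (h : InW W c) (h' : InW W c') : InW W (c + c') := by
  intro x hx
  rw [AddMonoidAlgebra.coeff_add, Finsupp.add_apply] at hx
  by_cases h1 : c.coeff x = 0
  · rw [h1, zero_add] at hx
    exact h' x hx
  · exact h x h1

theorem InW_mul {W : Submodule ℚ (Fin d → ℚ)} {c c' : AddMonoidAlgebra ℂ (Fin d → ℤ)}
    (h : InW W c) (h' : InW W c') : InW W (c * c') := by
  intro x hx
  rw [coeff_mul_eq] at hx
  unfold conv at hx
  obtain ⟨y, hy, hne⟩ := Finset.exists_ne_zero_of_sum_ne_zero hx
  have h1 := h y (left_ne_zero_of_mul hne)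
  have h2 := h' (x - y) (right_ne_zero_of_mul hne)
  have h3 : cq d x = cq d y + cq d (x - y) := by
    rw [← map_add]
    congr 1
    abel
  rw [h3]
  exact W.add_mem h1 h2

theorem InW_single_zero (W : Submodule ℚ (Fin d → ℚ)) (r : ℂ) :
    InW W (AddMonoidAlgebra.single 0 r) := by
  intro x hx
  rw [AddMonoidAlgebra.coeff_single] at hx
  have h1 : x = 0 := by
    by_contra hne
    exact hx (Finsupp.single_eq_of_ne hne)
  rw [h1, map_zero]
  exact W.zero_mem

theorem InW_aeval {W : Submodule ℚ (Fin d → ℚ)} {a : AddMonoidAlgebra ℂ (Fin d → ℤ)}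
    (ha : InW W a) (p : Polynomial ℂ) : InW W (Polynomial.aeval a p) := by
  induction p using Polynomial.induction_on' with
  | add p q hp hq =>
    rw [map_add]
    exact InW_add hp hq
  | monomial k r =>
    rw [Polynomial.aeval_monomial]
    refine InW_mul ?_ ?_
    · have h1 : algebraMap ℂ (AddMonoidAlgebra ℂ (Fin d → ℤ)) r = AddMonoidAlgebra.single 0 r := rfl
      rw [h1]
      exact InW_single_zero W r
    · induction k with
      | zero =>
        rw [pow_zero, ← mo_zero]
        exact InW_single_zero W 1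
      | succ k ih =>
        rw [pow_succ]
        exact InW_mul ih ha

theorem InW_lp (P : MvPolynomial (Fin d) ℤ) : InW (VF P) (lp P * lpr P) := by
  classical
  intro x hx
  rw [coeff_mul_eq] at hx
  unfold conv at hx
  obtain ⟨y, hy, hne⟩ := Finset.exists_ne_zero_of_sum_ne_zero hx
  have h1 : (lp P).coeff y ≠ 0 := left_ne_zero_of_mul hne
  have h2 : (lpr P).coeff (x - y) ≠ 0 := right_ne_zero_of_mul hne
  obtain ⟨m, hm, h3⟩ := coeff_sum_ne _ _ _ h1
  obtain ⟨m', hm', h4⟩ := coeff_sum_ne _ _ _ h2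
  have h5 : x = iot m - iot m' := by
    have h6 : x - y = -(iot m') := h4.symm
    have h7 : y = iot m := h3.symm
    rw [h7] at h6
    rw [sub_eq_iff_eq_add] at h6
    rw [h6]
    abel
  rw [h5]
  exact mem_VF hm hm'

theorem supp_qF (q : Polynomial ℝ) (P : MvPolynomial (Fin d) ℤ) :
    ∀ x ∈ (qF q P).coeff.support, cq d x ∈ VF P := fun x hx =>
  InW_aeval (InW_lp P) _ x (Finsupp.mem_support_iff.mp hx)

/-- a substitution which is injective on the span of the differences preserves the measure -/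
theorem mm_eq_of {P : MvPolynomial (Fin d) ℤ} {Q : MvPolynomial (Fin n) ℤ} (hP : P ≠ 0)
    (hQ : Q ≠ 0) (σ : (Fin d → ℤ) →+ (Fin n → ℤ)) (z : Fin n → ℤ)
    (hJ : JJ n Q = mo z * SP σ P) (hσ : ∀ x, cq d x ∈ VF P → σ x = 0 → x = 0) : mm Q = mm P := by
  obtain ⟨χ, hχ⟩ : ∃ χ : (Fin n → ℝ) → Multiplicative (Fin d → ℤ) →* ℂ,
      ∀ t, χ t = (chr t).comp (AddMonoidHom.toMultiplicative σ) := ⟨_, fun _ => rfl⟩
  have hnχ : ∀ t x, ‖χ t x‖ = 1 := by
    intro t x
    rw [hχ]
    exact norm_chr t _
  have hnorm : ∀ t, ‖ev (chr t) (lp Q)‖ = ‖ev (χ t) (lp P)‖ := by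
    intro t
    rw [← JJ_eq_lp, hJ, map_mul, norm_mul, ev_SP, hχ]
    have : ev (chr t) (mo z) = chr t (.ofAdd z) := by
      rw [AddMonoidAlgebra.lift_single, one_smul]
    rw [this, norm_chr, one_mul]
  have hff : ∀ t, ff Q t = ‖ev (χ t) (lp P)‖ ^ 2 := by
    intro t
    rw [← hnorm]
    rfl
  have hmean : ∀ q : Polynomial ℝ, ∫ t in cube n, q.eval (ff Q t) =
      ∫ t in cube d, q.eval (ff P t) := by
    intro q
    have h1 := mean_SP σ (qF q P) fun x hx => hσ x (supp_qF q P x hx)
    have h2 := mean_cube (qF q P)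
    rw [← h2] at h1
    simp only [← hχ, fun t => ev_qF (hnχ t) q P, fun t => ev_qF (norm_chr t) q P] at h1
    rw [integral_complex_ofReal, integral_complex_ofReal] at h1
    simp only [hff]
    exact_mod_cast h1
  have hb : ∀ t, ff Q t ≤ len P ^ 2 := by
    intro t
    rw [hff]
    have := norm_ev_le (hnχ t) P
    gcongr
  -- equality of the truncated integrals
  have htl : ∀ k : ℕ, ∫ t in cube n, tl k (ff Q t) = ∫ t in cube d, tl k (ff P t) := by
    intro k
    refine eq_of_forall_dist_le fun ε hε => ?_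
    obtain ⟨p, hp⟩ := exists_polynomial_near_of_continuousOn 0 (len P ^ 2) (tl k)
      (continuous_tl k).continuousOn (ε / 2) (by positivity)
    have key : ∀ {m : ℕ} (R : MvPolynomial (Fin m) ℤ), (∀ t, ff R t ≤ len P ^ 2) →
        |(∫ t in cube m, tl k (ff R t)) - ∫ t in cube m, p.eval (ff R t)| ≤ ε / 2 := by
      intro m R hR
      have hi1 : Integrable (fun t => tl k (ff R t)) (volume.restrict (cube m)) :=
        integrable_of_cont ((continuous_tl k).comp (continuous_ff R))
      have hi2 : Integrable (fun t => p.eval (ff R t)) (volume.restrict (cube m)) :=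
        integrable_of_cont ((Polynomial.continuous _).comp (continuous_ff R))
      rw [← integral_sub hi1 hi2, ← Real.norm_eq_abs]
      have h1 := norm_integral_le_of_norm_le_const (μ := volume.restrict (cube m))
        (f := fun t => tl k (ff R t) - p.eval (ff R t)) (C := ε / 2) (ae_of_all _ fun t => by
          rw [Real.norm_eq_abs, abs_sub_comm]
          exact (hp (ff R t) ⟨ff_nonneg R t, hR t⟩).le)
      rw [measureReal_restrict_apply_univ, measureReal_def, volume_cube] at h1
      simpa using h1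
    have h1 := key Q hb
    have h2 := key P (ff_le P)
    rw [hmean] at h1
    rw [Real.dist_eq]
    rw [abs_le] at h1 h2 ⊢
    constructor <;> linarith [h1.1, h1.2, h2.1, h2.2]
  have h1 := tendsto_tl hQ
  have h2 := tendsto_tl hP
  simp only [htl] at h1
  exact tendsto_nhds_unique h1 h2

/-- the measure of a substitution which is injective on the span of the differences -/
theorem mA_eq_mm {P : MvPolynomial (Fin d) ℤ} (hP : P ≠ 0) (σ : (Fin d → ℤ) →+ (Fin n → ℤ))
    (hσ : ∀ x, cq d x ∈ VF P → σ x = 0 → x = 0) : mA σ P = mm P := by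
  obtain ⟨z, Q, -, hQ, -⟩ := exists_poly σ P P
  have hinj : ∀ m ∈ P.support, ∀ m' ∈ P.support, σ (iot m) = σ (iot m') → m = m' := by
    intro m hm m' hm' h
    have h1 := hσ (iot m - iot m') (mem_VF hm hm') (by rw [map_sub, h, sub_self])
    exact iot_injective (sub_eq_zero.mp h1)
  have hQ0 : Q ≠ 0 := by
    rintro rfl
    rw [map_zero] at hQ
    exact mul_ne_zero (mo_ne _) (SP_ne_zero σ hP hinj) hQ.symm
  rw [← mm_eq_mA σ hQ]
  exact mm_eq_of hP hQ0 σ _ hQ hσ

end Pool.Agent.H87.DR
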