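import Pool.Agent.H87.DR.Joint
import Pool.Agent.H87.DR.Meas

/-!
# Derived sets, module Core3: one slot of the limit theorem
-/

set_option autoImplicit false

open Finset Filter Topology MeasureTheory

namespace Pool.Agent.H87.DR

open Pool.Agent.H87.MM Pool.Agent.H87.BZ

variable {n d : ℕ}

theorem dvd_A_of_recip' {A G : MvPolynomial (Fin d) ℤ} (hG : Irreducible G) (hrec : Recip G)
    (hmono : ∀ w : Fin d →₀ ℕ, ¬ G ∣ MvPolynomial.monomial w (1 : ℤ)) (hGA : G ∣ rv A) :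
    G ∣ A := by
  classical
  obtain ⟨H, hH⟩ := hGA
  obtain ⟨a, ε, hε, hsa, hca⟩ := hrec
  -- the involution of G
  have hG1 : mo (iot a) * tau (JJ d G) = AddMonoidAlgebra.single 0 ((ε : ℤ) : ℂ) * JJ d G := by
    have h1 : JJ d G = ∑ m ∈ Iic a, AddMonoidAlgebra.single (iot m) ((G.coeff m : ℤ) : ℂ) := by
      rw [← SP_id]
      exact SP_box _ hsa
    rw [h1, map_sum, Finset.mul_sum, Finset.mul_sum]
    refine sum_nbij' (fun m => a - m) (fun m => a - m) ?_ ?_ ?_ ?_ ?_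
    · intro m _; exact mem_Iic.mpr tsub_le_self
    · intro m _; exact mem_Iic.mpr tsub_le_self
    · intro m hm; exact fsub_sub (mem_Iic.mp hm)
    · intro m hm; exact fsub_sub (mem_Iic.mp hm)
    · intro m hm
      rw [mem_Iic] at hm
      rw [tau_single, AddMonoidAlgebra.single_mul_single, AddMonoidAlgebra.single_mul_single,
        one_mul, zero_add, iot_sub hm, sub_eq_add_neg]
      congr 1
      rw [hca m hm]
      rcases hε with h | h <;> simp [h]
  have h2 : mo (-iot (dg A)) * JJ d A = tau (JJ d G) * tau (JJ d H) := by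
    rw [← tau_JJ_rv, hH, map_mul, map_mul]
  -- the involution of H
  have h3 := tau_JJ H
  have h4 : JJ d (MvPolynomial.monomial (a + dg H) 1 * A) =
      JJ d (MvPolynomial.C ε * MvPolynomial.monomial (dg A) 1 * G * rv H) := by
    simp only [map_mul, JJ_monomial]
    have e0 : JJ d (MvPolynomial.C ε) = AddMonoidAlgebra.single 0 ((ε : ℤ) : ℂ) := by
      have := JJ_monomial (n := d) 0 ε
      rwa [iot_zero] at this
    rw [e0, Int.cast_one, iot_add]
    have e1 : JJ d A = mo (iot (dg A)) * (tau (JJ d G) * tau (JJ d H)) := by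
      rw [← h2, ← mul_assoc, mo_mul, add_neg_cancel, mo_zero, one_mul]
    have e2 : JJ d (rv H) = mo (iot (dg H)) * tau (JJ d H) := by
      rw [h3, ← mul_assoc, mo_mul, add_neg_cancel, mo_zero, one_mul]
    have e3 : AddMonoidAlgebra.single (iot a + iot (dg H)) (1 : ℂ) =
        mo (iot a) * mo (iot (dg H)) := (mo_mul _ _).symm
    rw [e1, e2, e3]
    calc mo (iot a) * mo (iot (dg H)) * (mo (iot (dg A)) * (tau (JJ d G) * tau (JJ d H)))
        = mo (iot (dg A)) * (mo (iot a) * tau (JJ d G)) * (mo (iot (dg H)) * tau (JJ d H)) := by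
          ring
      _ = mo (iot (dg A)) * (AddMonoidAlgebra.single 0 ((ε : ℤ) : ℂ) * JJ d G) *
          (mo (iot (dg H)) * tau (JJ d H)) := by rw [hG1]
      _ = _ := by ring
  have h5 : G ∣ MvPolynomial.monomial (a + dg H) 1 * A := by
    rw [JJ_injective h4]
    exact ((dvd_mul_left G _).mul_right (rv H))
  rcases (UniqueFactorizationMonoid.irreducible_iff_prime.mp hG).dvd_or_dvd h5 with h6 | h6
  · exact absurd h6 (hmono _)
  · exact h6

section core

variable {𝒰 : Ultrafilter ℕ} {k : ℕ → ℕ} {σ : ∀ n, (Fin d → ℤ) →+ (Fin (k n) → ℤ)}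
  {F : ∀ n, MvPolynomial (Fin (k n)) ℤ}

theorem core_recip' (hσ : ∀ x, x ≠ 0 → ∀ᶠ n in (𝒰 : Filter ℕ), σ n x ≠ 0)
    (hF : ∀ᶠ n in (𝒰 : Filter ℕ), F n ≠ 0) {A B : MvPolynomial (Fin d) ℤ}
    (hcop : IsRelPrime A B)
    (hrel : ∀ᶠ n in (𝒰 : Filter ℕ), SP (σ n) A * JJ _ (rv (F n)) = SP (σ n) B * JJ _ (F n))
    {G : MvPolynomial (Fin d) ℤ} (hG : Irreducible G)
    (hmono : ∀ w : Fin d →₀ ℕ, ¬ G ∣ MvPolynomial.monomial w (1 : ℤ)) (hGB : G ∣ B) :
    ¬ Recip G := by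
  classical
  intro hrec
  obtain ⟨X, hX⟩ : ∃ X, X = A * rv A * MvPolynomial.monomial (dg B) 1 := ⟨_, rfl⟩
  obtain ⟨Y, hY⟩ : ∃ Y, Y = B * rv B * MvPolynomial.monomial (dg A) 1 := ⟨_, rfl⟩
  have heq : X = Y := by
    by_contra hne
    have hev : ∀ᶠ n in (𝒰 : Filter ℕ), False := by
      filter_upwards [hF, hrel, ev_inj_exp hσ (X - Y).support] with n h1 h2 h3
      refine SP_ne_zero (σ n) (sub_ne_zero.mpr hne) h3 ?_
      rw [map_sub, sub_eq_zero, hX, hY]
      simp only [map_mul, SP_monomial]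
      have h4 := congrArg tau h2
      rw [map_mul, map_mul, tau_SP, tau_SP, tau_JJ_rv, tau_JJ] at h4
      have hf1 := JJ_ne h1
      have hf2 := JJ_ne (rv_ne_zero h1)
      obtain ⟨zA, hzA⟩ : ∃ zA, zA = σ n (iot (dg A)) := ⟨_, rfl⟩
      obtain ⟨zB, hzB⟩ : ∃ zB, zB = σ n (iot (dg B)) := ⟨_, rfl⟩
      obtain ⟨zF, hzF⟩ : ∃ zF, zF = iot (dg (F n)) := ⟨_, rfl⟩
      rw [← hzA, ← hzB, ← hzF] at h4
      rw [← hzA, ← hzB, Int.cast_one]
      have e1 : mo zA * mo (-zA) = (1 : AddMonoidAlgebra ℂ (Fin (k n) → ℤ)) := by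
        rw [mo_mul, add_neg_cancel, mo_zero]
      have e2 : mo zB * mo (-zB) = (1 : AddMonoidAlgebra ℂ (Fin (k n) → ℤ)) := by
        rw [mo_mul, add_neg_cancel, mo_zero]
      have e3 : mo zF * mo (-zF) = (1 : AddMonoidAlgebra ℂ (Fin (k n) → ℤ)) := by
        rw [mo_mul, add_neg_cancel, mo_zero]
      have h5 : (SP (σ n) A * SP (σ n) (rv A) * mo zB) * (JJ (k n) (rv (F n)) * JJ (k n) (F n)) =
          (SP (σ n) B * SP (σ n) (rv B) * mo zA) * (JJ (k n) (rv (F n)) * JJ (k n) (F n)) := by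
        have h6 : SP (σ n) (rv A) * JJ (k n) (F n) * mo zB =
            SP (σ n) (rv B) * JJ (k n) (rv (F n)) * mo zA := by
          have h7 := congrArg (fun x => mo zA * mo zB * mo zF * x) h4
          calc SP (σ n) (rv A) * JJ (k n) (F n) * mo zB =
              (mo zA * mo (-zA)) * (mo zF * mo (-zF)) *
                (SP (σ n) (rv A) * JJ (k n) (F n) * mo zB) := by
                rw [e1, e3, one_mul, one_mul]
            _ = mo zA * mo zB * mo zF * (AddMonoidAlgebra.single (-zA) 1 * SP (σ n) (rv A) *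
                (mo (-zF) * JJ (k n) (F n))) := by ring
            _ = mo zA * mo zB * mo zF * (AddMonoidAlgebra.single (-zB) 1 * SP (σ n) (rv B) *
                (mo (-zF) * JJ (k n) (rv (F n)))) := h7
            _ = (mo zB * mo (-zB)) * (mo zF * mo (-zF)) *
                (SP (σ n) (rv B) * JJ (k n) (rv (F n)) * mo zA) := by ring
            _ = _ := by rw [e2, e3, one_mul, one_mul]
        calc (SP (σ n) A * SP (σ n) (rv A) * mo zB) * (JJ (k n) (rv (F n)) * JJ (k n) (F n)) =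
            (SP (σ n) A * JJ (k n) (rv (F n))) *
              (SP (σ n) (rv A) * JJ (k n) (F n) * mo zB) := by ring
          _ = (SP (σ n) B * JJ (k n) (F n)) *
              (SP (σ n) (rv B) * JJ (k n) (rv (F n)) * mo zA) := by rw [h2, h6]
          _ = _ := by ring
      exact mul_right_cancel₀ (mul_ne_zero hf2 hf1) h5
    obtain ⟨n, hn⟩ := hev.exists
    exact hn
  have hprime := UniqueFactorizationMonoid.irreducible_iff_prime.mp hG
  have hGX : G ∣ A * rv A * MvPolynomial.monomial (dg B) 1 := by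
    rw [← hX, heq, hY]
    exact (hGB.mul_right _).mul_right _
  have hnot : ¬ G ∣ A := fun h => hG.not_isUnit (hcop h hGB)
  rcases hprime.dvd_or_dvd hGX with h1 | h1
  · rcases hprime.dvd_or_dvd h1 with h2 | h2
    · exact hnot h2
    · exact hnot (dvd_A_of_recip' hG hrec hmono h2)
  · exact hmono _ h1

/-- one slot: the limit, the exact values, the factors and the spans -/
theorem core3 (hσ : ∀ x, x ≠ 0 → ∀ᶠ n in (𝒰 : Filter ℕ), σ n x ≠ 0)
    (hF : ∀ᶠ n in (𝒰 : Filter ℕ), Cop (F n)) {A B : MvPolynomial (Fin d) ℤ} (hA : A ≠ 0)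
    (hB : B ≠ 0)
    (hrel : ∀ᶠ n in (𝒰 : Filter ℕ), SP (σ n) A * JJ _ (rv (F n)) = SP (σ n) B * JJ _ (F n))
    {μ : ℝ} (hμ : Tendsto (fun n => mm (F n)) (𝒰 : Filter ℕ) (𝓝 μ)) :
    ∃ B1 : MvPolynomial (Fin d) ℤ, B1 ≠ 0 ∧ mm B1 = μ ∧
      (∀ G : MvPolynomial (Fin d) ℤ, Irreducible G → G ∣ B1 →
        (∃ w : Fin d →₀ ℕ, G ∣ MvPolynomial.monomial w (1 : ℤ)) ∨ ¬ Recip G) ∧
      (∀ᶠ n in (𝒰 : Filter ℕ), mm (F n) = mA (σ n) B1) ∧
      ∀ᶠ n in (𝒰 : Filter ℕ), VF (F n) ≤ (VF B1).map (lq (σ n)) := by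
  classical
  obtain ⟨A1, B1, c, hcop, hcA, hcB⟩ := UniqueFactorizationMonoid.exists_reduced_factors A hA B
  have hc0 : c ≠ 0 := by
    rintro rfl
    rw [zero_mul] at hcA
    exact hA hcA.symm
  have hA1 : A1 ≠ 0 := by
    rintro rfl
    rw [mul_zero] at hcA
    exact hA hcA.symm
  have hB1 : B1 ≠ 0 := by
    rintro rfl
    rw [mul_zero] at hcB
    exact hB hcB.symm
  have hrel1 : ∀ᶠ n in (𝒰 : Filter ℕ),
      SP (σ n) A1 * JJ _ (rv (F n)) = SP (σ n) B1 * JJ _ (F n) := by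
    filter_upwards [hrel, ev_inj_exp hσ c.support] with n h1 h2
    have h3 := SP_ne_zero (σ n) hc0 h2
    rw [← hcA, ← hcB, map_mul, map_mul, mul_assoc, mul_assoc] at h1
    exact mul_left_cancel₀ h3 h1
  have hF0 : ∀ᶠ n in (𝒰 : Filter ℕ), F n ≠ 0 := hF.mono fun n hn => hn.1
  obtain ⟨C, hC⟩ := slot_aux hA1 hB1 hcop
  obtain ⟨Z, hZ⟩ : ∃ Z : Finset (Fin d → ℤ), Z =
      Fintype.piFinset (fun _ => Finset.Icc (-(C : ℤ)) (C : ℤ)) := ⟨_, rfl⟩
  have hev : ∀ᶠ n in (𝒰 : Filter ℕ), mm (F n) = mA (σ n) B1 ∧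
      VF (F n) ≤ (VF B1).map (lq (σ n)) := by
    filter_upwards [hF, hrel1, ev_inj_box hσ Z, ev_inj_exp hσ A1.support,
      ev_inj_exp hσ B1.support] with n h1 h2 h3 h4 h5
    obtain ⟨z, P, Q, hP, hQ⟩ := exists_poly (σ n) A1 B1
    have hP0 : P ≠ 0 := by
      rintro rfl
      rw [map_zero] at hP
      exact mul_ne_zero (mo_ne _) (SP_ne_zero (σ n) hA1 h4) hP.symm
    have hQ0 : Q ≠ 0 := by
      rintro rfl
      rw [map_zero] at hQ
      exact mul_ne_zero (mo_ne _) (SP_ne_zero (σ n) hB1 h5) hQ.symm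
    have hPQ : P * rv (F n) = Q * F n := by
      refine JJ_injective ?_
      rw [map_mul, map_mul, hP, hQ, mul_assoc, mul_assoc, h2]
    obtain ⟨e, he⟩ : F n ∣ P := h1.2 P (hPQ ▸ dvd_mul_left _ _)
    have he0 : e ≠ 0 := by
      rintro rfl
      rw [mul_zero] at he
      exact hP0 he
    have hQe : Q = e * rv (F n) := by
      have : F n * Q = F n * (e * rv (F n)) := by
        rw [mul_comm, ← hPQ, he]
        ring
      exact mul_left_cancel₀ h1.1 this
    have hme : mm e = 0 := by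
      refine hC (k n) (σ n) (fun b hb hbC hb0 => hb (h3 b ?_ hb0)) (iot z) P Q e hP0 hQ0 hP hQ
        ⟨F n, by rw [he, mul_comm]⟩ ⟨rv (F n), hQe⟩
      rw [hZ, Fintype.mem_piFinset]
      intro j
      rw [Finset.mem_Icc]
      exact abs_le.mp (hbC j)
    have e1 : mm Q = mm e + mm (F n) := by
      rw [hQe, mm_mul he0 (rv_ne_zero h1.1), mm_rv]
    refine ⟨by rw [← mm_eq_mA (σ n) hQ, e1, hme, zero_add], ?_⟩
    rw [← VF_rv]
    exact (VF_le_of_dvd hQ0 ⟨e, by rw [hQe, mul_comm]⟩).trans (VF_of_JJ (σ n) hQ)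
  refine ⟨B1, hB1, le_antisymm (core_lower hσ hF0 hA1 hB1 hcop hrel1 hμ)
    (core_upper hσ hF hA1 hB1 hrel1 hμ), fun G hG hGB => ?_, hev.mono fun n hn => hn.1,
    hev.mono fun n hn => hn.2⟩
  by_cases hmono : ∃ w : Fin d →₀ ℕ, G ∣ MvPolynomial.monomial w (1 : ℤ)
  · exact Or.inl hmono
  · push Not at hmono
    exact Or.inr (core_recip' hσ hF0 hcop hrel1 hG hmono hGB)

end core

end Pool.Agent.H87.DR
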