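import Pool.Agent.H87.DR.Span

/-!
# Derived sets, module Joint: the joint dimension of all nonreciprocal factors
-/

set_option autoImplicit false

open Finset Filter Topology MeasureTheory

namespace Pool.Agent.H87.DR

open Pool.Agent.H87.MM Pool.Agent.H87.BZ

variable {n : ℕ}

theorem mm_mono (w : Fin n →₀ ℕ) : mm (MvPolynomial.monomial w (1 : ℤ)) = 0 := by
  unfold mm
  have h3 : ∀ t : Fin n → ℝ, Real.log ‖ev (chr t) (lp (MvPolynomial.monomial w (1 : ℤ)))‖ =
      0 := by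
    intro t
    rw [← JJ_eq_lp, JJ_monomial, AddMonoidAlgebra.lift_single, Int.cast_one, one_smul,
      norm_chr, Real.log_one]
  simp only [h3]
  simp

theorem mono_ne (w : Fin n →₀ ℕ) : MvPolynomial.monomial w (1 : ℤ) ≠ 0 := by
  rw [Ne, MvPolynomial.monomial_eq_zero]
  exact one_ne_zero

theorem mm_pos_of_nonrecip {P : MvPolynomial (Fin n) ℤ} (hP : Irreducible P) (hr : ¬ Recip P) :
    0 < mm P := lt_of_lt_of_le (by norm_num) (mm_lower hP hr)

theorem dg_mul {P Q : MvPolynomial (Fin n) ℤ} (hP : P ≠ 0) (hQ : Q ≠ 0) :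
    dg (P * Q) = dg P + dg Q := by
  ext i
  unfold dg
  rw [Finsupp.add_apply]
  simp only [Finsupp.equivFunOnFinite_symm_apply_apply]
  exact MvPolynomial.degreeOf_mul_eq hP hQ

theorem JJ_rv (F : MvPolynomial (Fin n) ℤ) : JJ n (rv F) = mo (iot (dg F)) * tau (JJ n F) := by
  rw [tau_JJ, ← mul_assoc, mo_mul, add_neg_cancel, mo_zero, one_mul]

theorem rv_mul {P Q : MvPolynomial (Fin n) ℤ} (hP : P ≠ 0) (hQ : Q ≠ 0) :
    rv (P * Q) = rv P * rv Q := by
  refine JJ_injective ?_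
  rw [map_mul, JJ_rv, JJ_rv, JJ_rv, dg_mul hP hQ, iot_add, ← mo_mul, map_mul, map_mul]
  ring

theorem rv_rv (F : MvPolynomial (Fin n) ℤ) : ∃ a b : Fin n →₀ ℕ,
    MvPolynomial.monomial b (1 : ℤ) * F = MvPolynomial.monomial a 1 * rv (rv F) := by
  refine ⟨dg F, dg (rv F), JJ_injective ?_⟩
  rw [map_mul, map_mul, JJ_monomial, JJ_monomial, JJ_rv (rv F), tau_JJ_rv, Int.cast_one]
  have e1 : mo (iot (dg F)) * mo (-iot (dg F)) = (1 : AddMonoidAlgebra ℂ (Fin n → ℤ)) := by
    rw [mo_mul, add_neg_cancel, mo_zero]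
  calc mo (iot (dg (rv F))) * JJ n F = (mo (iot (dg F)) * mo (-iot (dg F))) *
      (mo (iot (dg (rv F))) * JJ n F) := by rw [e1, one_mul]
    _ = _ := by ring

theorem not_dvd_mono {P : MvPolynomial (Fin n) ℤ} (hpos : 0 < mm P) (w : Fin n →₀ ℕ) :
    ¬ P ∣ MvPolynomial.monomial w (1 : ℤ) := by
  intro h
  have h1 := mm_le_of_dvd (mono_ne w) h
  rw [mm_mono] at h1
  linarith

theorem dvd_rv_symm {P Q : MvPolynomial (Fin n) ℤ} (hP : Irreducible P) (hPr : ¬ Recip P)
    (hQ : Irreducible Q) (hQr : ¬ Recip Q) (h : Q ∣ rv P) : P ∣ rv Q := by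
  obtain ⟨c, hc⟩ := h
  have hc0 : c ≠ 0 := by
    rintro rfl
    rw [mul_zero] at hc
    exact rv_ne_zero hP.ne_zero hc
  obtain ⟨a, b, hab⟩ := rv_rv P
  rw [hc, rv_mul hQ.ne_zero hc0] at hab
  have hprime := UniqueFactorizationMonoid.irreducible_iff_prime.mp hP
  have h1 : P ∣ MvPolynomial.monomial a 1 * (rv Q * rv c) := by
    rw [← hab]
    exact dvd_mul_left _ _
  rcases hprime.dvd_or_dvd h1 with h2 | h2
  · exact absurd h2 (not_dvd_mono (mm_pos_of_nonrecip hP hPr) a)
  · rcases hprime.dvd_or_dvd h2 with h3 | h3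
    · exact h3
    · exfalso
      obtain ⟨e, he⟩ := h3
      have h4 : MvPolynomial.monomial b (1 : ℤ) = MvPolynomial.monomial a 1 * (rv Q * e) := by
        refine mul_right_cancel₀ hP.ne_zero ?_
        rw [hab, he]
        ring
      have h5 : rv Q ∣ MvPolynomial.monomial b (1 : ℤ) := by
        rw [h4]
        exact (dvd_mul_right _ _).mul_left _
      refine not_dvd_mono ?_ b h5
      rw [mm_rv]
      exact mm_pos_of_nonrecip hQ hQr

theorem rv_prod : ∀ s : Multiset (MvPolynomial (Fin n) ℤ), (∀ P ∈ s, P ≠ 0) →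
    rv s.prod = (s.map rv).prod := by
  intro s
  induction s using Multiset.induction_on with
  | empty =>
    intro _
    rw [Multiset.prod_zero, Multiset.map_zero, Multiset.prod_zero]
    refine JJ_injective ?_
    have h : (1 : MvPolynomial (Fin n) ℤ) = MvPolynomial.monomial 0 1 := rfl
    rw [JJ_rv]
    have h2 : dg (1 : MvPolynomial (Fin n) ℤ) = 0 := by
      ext i
      unfold dg
      simp only [Finsupp.equivFunOnFinite_symm_apply_apply]
      rw [h]
      simp [MvPolynomial.degreeOf_one]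
    rw [h2, iot_zero, mo_zero, one_mul, map_one, map_one]
  | cons P s ih =>
    intro hs
    have h1 : ∀ Q ∈ s, Q ≠ 0 := fun Q hQ => hs Q (Multiset.mem_cons_of_mem hQ)
    rw [Multiset.prod_cons, Multiset.map_cons, Multiset.prod_cons,
      rv_mul (hs P (Multiset.mem_cons_self _ _)) (Multiset.prod_ne_zero fun h => h1 0 h rfl), ih h1]

theorem cop_prod {s : Multiset (MvPolynomial (Fin n) ℤ)} (hs : ∀ P ∈ s, Irreducible P)
    (hs2 : ∀ P ∈ s, ∀ Q ∈ s, ¬ P ∣ rv Q) : Cop s.prod := by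
  classical
  have hne : ∀ P ∈ s, P ≠ 0 := fun P hP => (hs P hP).ne_zero
  have h0 : s.prod ≠ 0 := Multiset.prod_ne_zero fun h => hne 0 h rfl
  refine ⟨h0, fun B hB => ?_⟩
  have hrp : IsRelPrime s.prod (rv s.prod) := by
    refine UniqueFactorizationMonoid.isRelPrime_iff_no_prime_factors h0 |>.mpr ?_
    intro p hp1 hp2 hprime
    obtain ⟨P, hP, hpP⟩ := hprime.exists_mem_multiset_dvd hp1
    rw [rv_prod s hne] at hp2
    obtain ⟨R, hR, hpR⟩ := hprime.exists_mem_multiset_dvd hp2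
    obtain ⟨Q, hQ, rfl⟩ := Multiset.mem_map.mp hR
    exact hs2 P hP Q hQ ((hprime.irreducible.associated_of_dvd (hs P hP) hpP).symm.dvd.trans hpR)
  exact hrp.dvd_of_dvd_mul_right hB

/-- reduction of a list of irreducible factors to a reduced one with the same joint span -/
theorem reduce_list : ∀ t : Multiset (MvPolynomial (Fin n) ℤ), (∀ P ∈ t, Irreducible P) →
    ∃ s : Multiset (MvPolynomial (Fin n) ℤ), (∀ P ∈ s, Irreducible P ∧ ¬ Recip P) ∧
      (∀ P ∈ s, ∀ Q ∈ s, ¬ P ∣ rv Q) ∧ (s.map mm).sum ≤ (t.map mm).sum ∧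
      ∀ P ∈ t, ¬ Recip P → ∃ Q ∈ s, VF P ≤ VF Q := by
  classical
  intro t
  induction t using Multiset.induction_on with
  | empty =>
    intro _
    exact ⟨0, fun P hP => absurd hP (Multiset.notMem_zero P),
      fun P hP => absurd hP (Multiset.notMem_zero P), le_rfl,
      fun P hP => absurd hP (Multiset.notMem_zero P)⟩
  | cons P t ih =>
    intro ht
    obtain ⟨s, hs1, hs2, hs3, hs4⟩ := ih fun Q hQ => ht Q (Multiset.mem_cons_of_mem hQ)
    have hP := ht P (Multiset.mem_cons_self _ _)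
    have hPnn := mm_nonneg hP.ne_zero
    by_cases hr : Recip P
    · refine ⟨s, hs1, hs2, ?_, fun Q hQ hQr => ?_⟩
      · rw [Multiset.map_cons, Multiset.sum_cons]
        linarith
      · rcases Multiset.mem_cons.mp hQ with rfl | hQ'
        · exact absurd hr hQr
        · exact hs4 Q hQ' hQr
    · by_cases hex : ∃ Q ∈ s, P ∣ rv Q
      · obtain ⟨Q, hQ, hPQ⟩ := hex
        refine ⟨s, hs1, hs2, ?_, fun R hR hRr => ?_⟩
        · rw [Multiset.map_cons, Multiset.sum_cons]
          linarith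
        · rcases Multiset.mem_cons.mp hR with rfl | hR'
          · refine ⟨Q, hQ, ?_⟩
            rw [← VF_rv Q]
            exact VF_le_of_dvd (rv_ne_zero (hs1 Q hQ).1.ne_zero) hPQ
          · exact hs4 R hR' hRr
      · push Not at hex
        refine ⟨P ::ₘ s, fun Q hQ => ?_, fun Q hQ R hR => ?_, ?_, fun R hR hRr => ?_⟩
        · rcases Multiset.mem_cons.mp hQ with rfl | hQ'
          · exact ⟨hP, hr⟩
          · exact hs1 Q hQ'
        · rcases Multiset.mem_cons.mp hQ with rfl | hQ'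
          · rcases Multiset.mem_cons.mp hR with rfl | hR'
            · exact fun h => hr (recip_of_dvd hP.ne_zero h)
            · exact hex R hR'
          · rcases Multiset.mem_cons.mp hR with rfl | hR'
            · exact fun h => hex Q hQ' (dvd_rv_symm hP hr (hs1 Q hQ').1 (hs1 Q hQ').2 h)
            · exact hs2 Q hQ' R hR'
        · rw [Multiset.map_cons, Multiset.sum_cons, Multiset.map_cons, Multiset.sum_cons]
          linarith
        · rcases Multiset.mem_cons.mp hR with rfl | hR'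
          · exact ⟨_, Multiset.mem_cons_self _ _, le_rfl⟩
          · obtain ⟨Q, hQ, h⟩ := hs4 R hR' hRr
            exact ⟨Q, Multiset.mem_cons_of_mem hQ, h⟩

/-- the joint span of the nonreciprocal irreducible factors -/
def NS (F : MvPolynomial (Fin n) ℤ) : Submodule ℚ (Fin n → ℚ) :=
  Submodule.span ℚ {v : Fin n → ℚ | ∃ P : MvPolynomial (Fin n) ℤ, Irreducible P ∧ P ∣ F ∧
    ¬ Recip P ∧ ∃ m ∈ P.support, ∃ m' ∈ P.support, v = fun i => (m i : ℚ) - (m' i : ℚ)}

theorem VF_le_NS {F P : MvPolynomial (Fin n) ℤ} (hP : Irreducible P) (hd : P ∣ F)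
    (hr : ¬ Recip P) : VF P ≤ NS F := by
  refine Submodule.span_mono ?_
  rintro _ ⟨m, hm, m', hm', rfl⟩
  exact ⟨P, hP, hd, hr, m, hm, m', hm', rfl⟩

theorem NS_le {F : MvPolynomial (Fin n) ℤ} {W : Submodule ℚ (Fin n → ℚ)}
    (h : ∀ P, Irreducible P → P ∣ F → ¬ Recip P → VF P ≤ W) : NS F ≤ W := by
  refine Submodule.span_le.mpr ?_
  rintro _ ⟨P, hP, hd, hr, m, hm, m', hm', rfl⟩
  exact h P hP hd hr (Submodule.subset_span ⟨m, hm, m', hm', rfl⟩)

/-- the joint dimension of the nonreciprocal irreducible factors -/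
noncomputable def jd (F : MvPolynomial (Fin n) ℤ) : ℕ := Module.finrank ℚ (NS F)

theorem dd_ne_zero' {F : MvPolynomial (Fin n) ℤ} (hcop : Cop F)
    {m0 m1 : Fin n →₀ ℕ} (hm0 : m0 ∈ F.support) (s : Finset (Fin n → ℤ))
    (hs : s.card < dimF F) :
    dd (AddSubgroup.closure (s : Set (Fin n → ℤ))) (la F (iot m0)) (lb F (iot m1)) ≠ 0 := by
  classical
  intro h0
  obtain ⟨V, hV⟩ : ∃ V, V = AddSubgroup.closure (s : Set (Fin n → ℤ)) := ⟨_, rfl⟩
  rw [← hV, dd_eq] at h0
  have h1 := JJ_injective ((mo_mul_eq_zero h0).trans (map_zero _).symm)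
  have h2 : F ∣ FV (V : Set (Fin n → ℤ)) F (iot m0) * rv F := by
    rw [← sub_eq_zero.mp h1]
    exact dvd_mul_right _ _
  have h3 := hcop.2 _ h2
  obtain ⟨ψ, hψ, m, hm, m', hm', hne⟩ := exists_psi F s hs
  have hsupp : ∀ u ∈ (FV (V : Set (Fin n → ℤ)) F (iot m0)).support, iot u - iot m0 ∈ V := by
    intro u hu
    unfold FV at hu
    have h4 := MvPolynomial.support_sum hu
    obtain ⟨k, hk, hk'⟩ := Finset.mem_biUnion.mp h4
    have h5 := MvPolynomial.support_monomial_subset hk'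
    rw [Finset.mem_singleton] at h5
    subst h5
    exact (Finset.mem_filter.mp hk).2
  have hne0 : FV (V : Set (Fin n → ℤ)) F (iot m0) ≠ 0 := by
    intro h
    have h4 : (FV (V : Set (Fin n → ℤ)) F (iot m0)).coeff m0 = F.coeff m0 := by
      unfold FV
      rw [MvPolynomial.coeff_sum, Finset.sum_eq_single m0]
      · rw [MvPolynomial.coeff_monomial, if_pos rfl]
      · intro k _ hk
        rw [MvPolynomial.coeff_monomial, if_neg hk]
      · intro h5
        exfalso
        apply h5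
        rw [Finset.mem_filter]
        refine ⟨hm0, ?_⟩
        rw [sub_self]
        exact V.zero_mem
    rw [h, MvPolynomial.coeff_zero] at h4
    exact MvPolynomial.mem_support_iff.mp hm0 h4.symm
  have h6 := const_of_dvd ψ hne0 h3 (r := ψ (iot m0)) (by
    intro u hu
    have h7 := hψ _ (hV ▸ hsupp u hu)
    rw [map_sub] at h7
    linarith)
  exact hne (h6 m hm m' hm')

theorem dim_cop {F : MvPolynomial (Fin n) ℤ} (hcop : Cop F) :
    (dimF F : ℝ) ≤ 4 * Real.exp (4 * mm F) := by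
  obtain ⟨m0, hm0, hmin⟩ := exists_low hcop.1
  obtain ⟨m1, hm1, hmax⟩ := exists_high hcop.1
  obtain ⟨g, h, S, hg1, hh1, hh0⟩ := exists_sol hm0 hm1 hmin hmax
  have hb0 : (lb F (iot m1)).coeff 0 = ((F.coeff m1 : ℤ) : ℂ) := by
    have := lb_coeff (w := iot m1) hm1
    rwa [sub_self] at this
  have hc := chain S hg1 hh1 (κ := Real.exp (-(2 * mm F))) (Real.exp_pos _) (by
    rw [hb0]
    have h1 : (‖((F.coeff m1 : ℤ) : ℂ)‖ * Real.exp (-mm F)) ^ 2 ≤ ‖h 0‖ ^ 2 := by
      gcongr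
    calc Real.exp (-(2 * mm F)) * ‖((F.coeff m1 : ℤ) : ℂ)‖ ^ 2 =
        (‖((F.coeff m1 : ℤ) : ℂ)‖ * Real.exp (-mm F)) ^ 2 := by
          rw [mul_pow, ← Real.exp_nat_mul, mul_comm]
          congr 2
          push_cast
          ring
      _ ≤ _ := h1) (fun V v hv => dd_int V F _ _ v hv) (dimF F)
    (fun s hs => dd_ne_zero' hcop hm0 s hs)
  have h2 : Real.exp (-(2 * mm F)) ^ 2 = (Real.exp (4 * mm F))⁻¹ := by
    rw [← Real.exp_neg, ← Real.exp_nat_mul]
    congr 1
    push_cast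
    ring
  rw [h2] at hc
  have h3 : 0 < Real.exp (4 * mm F) := Real.exp_pos _
  have h4 : (dimF F : ℝ) * ((Real.exp (4 * mm F))⁻¹ / 2) = dimF F / (2 * Real.exp (4 * mm F)) := by
    field_simp
  rw [h4, div_le_iff₀ (by positivity)] at hc
  linarith

/-- the joint dimension bound -/
theorem jd_bound {F : MvPolynomial (Fin n) ℤ} (hF : F ≠ 0) :
    (jd F : ℝ) ≤ 4 * Real.exp (4 * mm F) := by
  classical
  obtain ⟨t, ht, u, hu⟩ := WfDvdMonoid.exists_factors F hF
  have htne : t.prod ≠ 0 := Multiset.prod_ne_zero fun h => (ht 0 h).ne_zero rfl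
  have hmF : mm F = (t.map mm).sum := by
    rw [← hu, mm_mul htne u.ne_zero, mm_unit u.isUnit, add_zero,
      mm_multiset t fun G hG => (ht G hG).ne_zero]
  obtain ⟨s, hs1, hs2, hs3, hs4⟩ := reduce_list t ht
  have hcop := cop_prod (fun P hP => (hs1 P hP).1) hs2
  have hle : NS F ≤ VF s.prod := by
    refine NS_le fun P hP hd hr => ?_
    have hprime := UniqueFactorizationMonoid.irreducible_iff_prime.mp hP
    rw [← hu] at hd
    rcases hprime.dvd_or_dvd hd with h1 | h1
    · obtain ⟨R, hR, hPR⟩ := hprime.exists_mem_multiset_dvd h1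
      have hass : Associated P R := hP.associated_of_dvd (ht R hR) hPR
      have hRr : ¬ Recip R := fun h => hr (recip_of_associated hass.symm h)
      obtain ⟨Q, hQ, hVQ⟩ := hs4 R hR hRr
      exact (VF_le_of_dvd (ht R hR).ne_zero hPR).trans
        (hVQ.trans (VF_le_of_dvd hcop.1 (Multiset.dvd_prod hQ)))
    · exact absurd (isUnit_of_dvd_unit h1 u.isUnit) hP.not_isUnit
  have h1 : jd F ≤ dimF s.prod := by
    rw [dimF_eq]
    exact Submodule.finrank_mono hle
  have h2 := dim_cop hcop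
  have h3 : mm s.prod ≤ mm F := by
    rw [mm_multiset s fun G hG => (hs1 G hG).1.ne_zero, hmF]
    exact hs3
  have h4 : Real.exp (4 * mm s.prod) ≤ Real.exp (4 * mm F) := Real.exp_le_exp.mpr (by linarith)
  have h5 : (jd F : ℝ) ≤ (dimF s.prod : ℝ) := by exact_mod_cast h1
  linarith

end Pool.Agent.H87.DR
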