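import Pool.Agent.H87.DR.Core3

/-!
# Derived sets, module Lim2: limits of measures have larger joint dimension
-/

set_option autoImplicit false

open Finset Filter Topology MeasureTheory

namespace Pool.Agent.H87.DR

open Pool.Agent.H87.MM Pool.Agent.H87.BZ

variable {n d : ℕ}

theorem decomp_aux2 : ∀ t : Multiset (MvPolynomial (Fin n) ℤ), (∀ G ∈ t, Irreducible G ∧
    (0 < mm G → ¬ Recip G ∨ ∃ c : ℤ, G = MvPolynomial.C c)) →
    ∃ (c : ℕ) (s : Multiset (MvPolynomial (Fin n) ℤ)), 1 ≤ c ∧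
      (∀ G ∈ s, Irreducible G ∧ ¬ Recip G) ∧
      (t.map mm).sum = Real.log c + (s.map mm).sum ∧ (∀ G ∈ t, ¬ Recip G → G ∈ s) ∧
      ∀ G ∈ s, G ∈ t := by
  intro t
  induction t using Multiset.induction_on with
  | empty =>
    intro _
    exact ⟨1, 0, le_rfl, fun G hG => absurd hG (Multiset.notMem_zero G), by simp,
      fun G hG => absurd hG (Multiset.notMem_zero G), fun G hG => hG⟩
  | cons G t ih =>
    intro ht
    obtain ⟨c, s, hc, hs, hsum, hmem, hst⟩ := ih fun G' hG' =>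
      ht G' (Multiset.mem_cons_of_mem hG')
    obtain ⟨hG, hG'⟩ := ht G (Multiset.mem_cons_self _ _)
    rw [Multiset.map_cons, Multiset.sum_cons, hsum]
    rcases (mm_nonneg hG.ne_zero).eq_or_lt with h0 | hpos
    · refine ⟨c, s, hc, hs, by rw [← h0, zero_add], fun H hH hr => ?_,
        fun H hH => Multiset.mem_cons_of_mem (hst H hH)⟩
      rcases Multiset.mem_cons.mp hH with h2 | h2
      · rw [h2] at hr
        exact absurd h0 (mm_pos_of_nonrecip hG hr).ne
      · exact hmem H h2 hr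
    · rcases hG' hpos with h1 | ⟨c0, hc0'⟩
      · refine ⟨c, G ::ₘ s, hc, fun G' hG'' => ?_, ?_, fun H hH hr => ?_, fun H hH => ?_⟩
        · rcases Multiset.mem_cons.mp hG'' with h2 | h2
          · rw [h2]; exact ⟨hG, h1⟩
          · exact hs G' h2
        · rw [Multiset.map_cons, Multiset.sum_cons]
          ring
        · rcases Multiset.mem_cons.mp hH with h2 | h2
          · rw [h2]; exact Multiset.mem_cons_self _ _
          · exact Multiset.mem_cons_of_mem (hmem H h2 hr)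
        · rcases Multiset.mem_cons.mp hH with h2 | h2
          · rw [h2]; exact Multiset.mem_cons_self _ _
          · exact Multiset.mem_cons_of_mem (hst H h2)
      · have hrecG : Recip G := by
          rw [hc0']
          exact recip_monomial 0 c0
        have hc0 : c0 ≠ 0 := by
          rintro rfl
          exact hG.ne_zero (by rw [hc0', map_zero])
        refine ⟨c0.natAbs * c, s, Nat.mul_pos (Int.natAbs_pos.mpr hc0) hc, hs, ?_,
          fun H hH hr => ?_, fun H hH => Multiset.mem_cons_of_mem (hst H hH)⟩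
        · have h2 : ((c0.natAbs : ℕ) : ℝ) = |(c0 : ℝ)| := by
            rw [Nat.cast_natAbs, Int.cast_abs]
          have h3 : (0 : ℝ) < |(c0 : ℝ)| := abs_pos.mpr (by exact_mod_cast hc0)
          have h4 : (0 : ℝ) < c := by exact_mod_cast hc
          rw [hc0', mm_C, Nat.cast_mul, h2, Real.log_mul h3.ne' h4.ne']
          ring
        · rcases Multiset.mem_cons.mp hH with h2 | h2
          · rw [h2] at hr
            exact absurd hrecG hr
          · exact hmem H h2 hr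

theorem decomp2 {F : MvPolynomial (Fin n) ℤ} (hF : F ≠ 0) (hcl : Cl F) :
    ∃ (c : ℕ) (s : Multiset (MvPolynomial (Fin n) ℤ)), 1 ≤ c ∧
      (∀ G ∈ s, Irreducible G ∧ ¬ Recip G) ∧ mm F = Real.log c + (s.map mm).sum ∧
      (∀ P, Irreducible P → P ∣ F → ¬ Recip P → ∃ G ∈ s, VF P ≤ VF G) ∧ ∀ G ∈ s, G ∣ F := by
  obtain ⟨t, ht, u, hu⟩ := WfDvdMonoid.exists_factors F hF
  have h1 : mm F = (t.map mm).sum := by
    have h2 : t.prod ≠ 0 := Multiset.prod_ne_zero fun h => (ht 0 h).ne_zero rfl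
    rw [← hu, mm_mul h2 u.ne_zero, mm_unit u.isUnit, add_zero,
      mm_multiset t fun G hG => (ht G hG).ne_zero]
  obtain ⟨c, s, hc, hs, hsum, hmem, hst⟩ := decomp_aux2 t fun G hG => ⟨ht G hG, fun hpos =>
    hcl G (ht G hG) ((Multiset.dvd_prod hG).trans ⟨u, hu.symm⟩) hpos⟩
  refine ⟨c, s, hc, hs, by rw [h1, hsum], fun P hP hd hr => ?_,
    fun G hG => (Multiset.dvd_prod (hst G hG)).trans ⟨u, hu.symm⟩⟩
  have hprime := UniqueFactorizationMonoid.irreducible_iff_prime.mp hP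
  rw [← hu] at hd
  rcases hprime.dvd_or_dvd hd with h3 | h3
  · obtain ⟨R, hR, hPR⟩ := hprime.exists_mem_multiset_dvd h3
    have hass : Associated P R := hP.associated_of_dvd (ht R hR) hPR
    have hRr : ¬ Recip R := fun h => hr (recip_of_associated hass.symm h)
    exact ⟨R, hmem R hR hRr, VF_le_of_dvd (ht R hR).ne_zero hPR⟩
  · exact absurd (isUnit_of_dvd_unit h3 u.isUnit) hP.not_isUnit

theorem pad2 (N : ℕ) : ∀ s : Multiset (MvPolynomial (Fin n) ℤ), s.card ≤ N →
    (∀ G ∈ s, Irreducible G ∧ ¬ Recip G) →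
    ∃ g : Fin N → MvPolynomial (Fin n) ℤ, (∀ i, g i = 1 ∨ (Irreducible (g i) ∧ ¬ Recip (g i))) ∧
      ∑ i, mm (g i) = (s.map mm).sum ∧ ∀ G ∈ s, ∃ i, g i = G := by
  induction N with
  | zero =>
    intro s hs _
    have h0 : s = 0 := by rw [← Multiset.card_eq_zero]; omega
    exact ⟨Fin.elim0, fun i => Fin.elim0 i, by rw [h0]; simp, fun G hG => by
      rw [h0] at hG
      exact absurd hG (Multiset.notMem_zero G)⟩
  | succ N ih =>
    intro s hs hG
    rcases s.empty_or_exists_mem with h0 | ⟨G, hGs⟩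
    · exact ⟨fun _ => 1, fun _ => Or.inl rfl, by rw [h0]; simp [mm_one], fun G hG => by
        rw [h0] at hG
        exact absurd hG (Multiset.notMem_zero G)⟩
    · obtain ⟨s', rfl⟩ := Multiset.exists_cons_of_mem hGs
      rw [Multiset.card_cons] at hs
      obtain ⟨g, hg1, hg2, hg3⟩ := ih s' (by omega) fun G' hG' =>
        hG G' (Multiset.mem_cons_of_mem hG')
      refine ⟨Fin.cons G g, fun i => ?_, ?_, fun H hH => ?_⟩
      · refine Fin.cases ?_ (fun i => ?_) i
        · exact Or.inr (hG G (Multiset.mem_cons_self _ _))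
        · exact hg1 i
      · rw [Fin.sum_univ_succ]
        simp only [Fin.cons_zero, Fin.cons_succ]
        rw [hg2, Multiset.map_cons, Multiset.sum_cons]
      · rcases Multiset.mem_cons.mp hH with h2 | h2
        · exact ⟨0, by rw [Fin.cons_zero, h2]⟩
        · obtain ⟨i, hi⟩ := hg3 H h2
          exact ⟨i.succ, by rw [Fin.cons_succ, hi]⟩

theorem VF_prod_le {W : Submodule ℚ (Fin n → ℚ)} : ∀ t : Multiset (MvPolynomial (Fin n) ℤ),
    (∀ P ∈ t, VF P ≤ W) → VF t.prod ≤ W := by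
  intro t
  induction t using Multiset.induction_on with
  | empty =>
    intro _
    rw [Multiset.prod_zero, VF_one]
    exact bot_le
  | cons P t ih =>
    intro h
    rw [Multiset.prod_cons]
    exact (VF_mul_le _ _).trans (sup_le (h P (Multiset.mem_cons_self _ _))
      (ih fun Q hQ => h Q (Multiset.mem_cons_of_mem hQ)))

theorem VF_le_NS' {B G : MvPolynomial (Fin n) ℤ} (hB : B ≠ 0) (hBG : B ∣ G)
    (h : ∀ P : MvPolynomial (Fin n) ℤ, Irreducible P → P ∣ B →
      (∃ w : Fin n →₀ ℕ, P ∣ MvPolynomial.monomial w (1 : ℤ)) ∨ ¬ Recip P) : VF B ≤ NS G := by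
  obtain ⟨t, ht, u, hu⟩ := WfDvdMonoid.exists_factors B hB
  rw [← hu]
  refine (VF_mul_le _ _).trans (sup_le (VF_prod_le t fun P hP => ?_) ?_)
  · have hPB : P ∣ B := (Multiset.dvd_prod hP).trans ⟨u, hu.symm⟩
    rcases h P (ht P hP) hPB with ⟨w, hw⟩ | h1
    · refine (VF_le_of_dvd (mono_ne w) hw).trans ?_
      rw [VF_monomial]
      exact bot_le
    · exact VF_le_NS (ht P hP) (hPB.trans hBG) h1
  · rw [VF_unit u.isUnit]
    exact bot_le

/-- injectivity on a subspace from equality of dimensions -/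
theorem inj_of_finrank (σ : (Fin d → ℤ) →+ (Fin n → ℤ)) {W : Submodule ℚ (Fin d → ℚ)}
    (h : Module.finrank ℚ W ≤ Module.finrank ℚ (W.map (lq σ))) :
    ∀ x, cq d x ∈ W → σ x = 0 → x = 0 := by
  intro x hx h0
  have h1 := LinearMap.finrank_range_add_finrank_ker ((lq σ).domRestrict W)
  rw [LinearMap.range_domRestrict] at h1
  have h2 : Module.finrank ℚ (LinearMap.ker ((lq σ).domRestrict W)) = 0 := by omega
  rw [Submodule.finrank_eq_zero] at h2
  have h3 : (⟨cq d x, hx⟩ : W) ∈ LinearMap.ker ((lq σ).domRestrict W) := by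
    rw [LinearMap.mem_ker, LinearMap.domRestrict_apply, lq_cq, h0, map_zero]
  rw [h2, Submodule.mem_bot, Submodule.mk_eq_zero] at h3
  refine cq_injective (n := d) ?_
  rw [h3, map_zero]

/-- the limit of measures is a measure; infinitely many members of the sequence are measures of
substitutions of the limit; the limit of values different from the limit has larger joint
dimension -/
theorem limit_all (k : ℕ → ℕ) (F : ∀ n, MvPolynomial (Fin (k n)) ℤ) (hF : ∀ n, F n ≠ 0)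
    (hcl : ∀ n, Cl (F n)) {μ : ℝ} (hμ : Tendsto (fun n => mm (F n)) atTop (𝓝 μ)) :
    ∃ (d : ℕ) (G : MvPolynomial (Fin d) ℤ), G ≠ 0 ∧ Cl G ∧ mm G = μ ∧
      {n | InM G (mm (F n))}.Infinite ∧
      ∀ r : ℕ, (∀ n, r ≤ jd (F n)) → (∀ n, mm (F n) ≠ μ) → r + 1 ≤ jd G := by
  classical
  obtain ⟨C, hC⟩ : ∃ C, ∀ n, mm (F n) ≤ C := by
    obtain ⟨C, hC⟩ := hμ.bddAbove_range
    exact ⟨C, fun n => hC ⟨n, rfl⟩⟩
  obtain ⟨𝒰, h𝒰⟩ : ∃ 𝒰 : Ultrafilter ℕ, (𝒰 : Filter ℕ) ≤ atTop :=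
    ⟨Ultrafilter.of atTop, Ultrafilter.of_le _⟩
  have hμ' : Tendsto (fun n => mm (F n)) (𝒰 : Filter ℕ) (𝓝 μ) := hμ.mono_left h𝒰
  obtain ⟨N0, hN0⟩ := exists_nat_ge (12 * C)
  -- decompositions
  have hdec : ∀ n, ∃ (c : ℕ) (g : Fin N0 → MvPolynomial (Fin (k n)) ℤ),
      c ∈ Finset.Icc 1 ⌊Real.exp C⌋₊ ∧ (∀ i, g i = 1 ∨ (Irreducible (g i) ∧ ¬ Recip (g i))) ∧
      mm (F n) = Real.log c + ∑ i, mm (g i) ∧ NS (F n) ≤ ⨆ i, VF (g i) := by
    intro n
    obtain ⟨c, s, hc, hs, hsum, hmem, -⟩ := decomp2 (hF n) (hcl n)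
    have hnn : ∀ s : Multiset (MvPolynomial (Fin (k n)) ℤ), (∀ G ∈ s, Irreducible G ∧ ¬ Recip G) →
        (s.card : ℝ) * (1 / 12) ≤ (s.map mm).sum := by
      intro s
      induction s using Multiset.induction_on with
      | empty => intro _; simp
      | cons G s ih =>
        intro hs
        have h1 := ih fun G' hG' => hs G' (Multiset.mem_cons_of_mem hG')
        have h2 := mm_lower (hs G (Multiset.mem_cons_self _ _)).1
          (hs G (Multiset.mem_cons_self _ _)).2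
        rw [Multiset.card_cons, Multiset.map_cons, Multiset.sum_cons]
        push_cast
        linarith
    have h1 := hnn s hs
    have h2 : 0 ≤ Real.log c := Real.log_nonneg (by exact_mod_cast hc)
    have h3 := hC n
    have h4 : (s.card : ℝ) ≤ N0 := by linarith
    obtain ⟨g, hg1, hg2, hg3⟩ := pad2 N0 s (by exact_mod_cast h4) hs
    refine ⟨c, g, ?_, hg1, by rw [hsum, hg2], NS_le fun P hP hd hr => ?_⟩
    · rw [Finset.mem_Icc]
      refine ⟨hc, ?_⟩
      rw [Nat.le_floor_iff (Real.exp_pos _).le]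
      have h5 : Real.log c ≤ C := by
        have : 0 ≤ (s.map mm).sum := le_trans (by positivity) h1
        linarith
      rwa [Real.log_le_iff_le_exp (by exact_mod_cast hc)] at h5
    · obtain ⟨G, hG, hPG⟩ := hmem P hP hd hr
      obtain ⟨i, hi⟩ := hg3 G hG
      rw [← hi] at hPG
      exact hPG.trans (le_iSup (fun i => VF (g i)) i)
  choose c g hc hg hsum hNS using hdec
  have hcop : ∀ n i, Cop (g n i) := fun n i => cop_of (hg n i)
  have hg0 : ∀ n i, g n i ≠ 0 := fun n i => (hcop n i).1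
  have hgC : ∀ n i, mm (g n i) ≤ C := by
    intro n i
    have h1 : mm (g n i) ≤ ∑ i, mm (g n i) :=
      single_le_sum (f := fun i => mm (g n i)) (fun i _ => mm_nonneg (hg0 n i)) (mem_univ i)
    have h2 : 0 ≤ Real.log (c n) := Real.log_nonneg (by
      exact_mod_cast (Finset.mem_Icc.mp (hc n)).1)
    have h3 := hsum n
    have h4 := hC n
    linarith
  obtain ⟨c0, hc0, hcc⟩ := ultra_const 𝒰 c _ hc
  have hlim : ∀ i, ∃ y, Tendsto (fun n => mm (g n i)) (𝒰 : Filter ℕ) (𝓝 y) := fun i =>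
    ultra_lim 𝒰 _ C fun n => ⟨mm_nonneg (hg0 n i), hgC n i⟩
  choose y hy using hlim
  have hμeq : μ = Real.log c0 + ∑ i, y i := by
    have h1 : Tendsto (fun n => Real.log c0 + ∑ i, mm (g n i)) (𝒰 : Filter ℕ)
        (𝓝 (Real.log c0 + ∑ i, y i)) :=
      (tendsto_finsetSum _ fun i _ => hy i).const_add _
    refine tendsto_nhds_unique hμ' (h1.congr' ?_)
    filter_upwards [hcc] with n hn
    rw [hsum n, hn]
  -- short pairs
  obtain ⟨K, hK⟩ := short_pair C
  obtain ⟨N, hN⟩ := exists_nat_ge K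
  have hrep : ∀ n i, ∃ (α β : Fin N → ℤ) (p q : Fin N → (Fin (k n) →₀ ℕ)),
      (∀ j, α j ∈ ({-1, 0, 1} : Finset ℤ)) ∧ (∀ j, β j ∈ ({-1, 0, 1} : Finset ℤ)) ∧
      (∑ j, MvPolynomial.monomial (p j) (α j)) ≠ 0 ∧
      (∑ j, MvPolynomial.monomial (p j) (α j)) * rv (g n i) =
        (∑ j, MvPolynomial.monomial (q j) (β j)) * g n i := by
    intro n i
    obtain ⟨A, B, hA, hlA, hlB, hAB⟩ := hK (k n) (g n i) (hg0 n i) (hgC n i)
    obtain ⟨α, p, hα, hp⟩ := poly_repr N A (hlA.trans hN)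
    obtain ⟨β, q, hβ, hq⟩ := poly_repr N B (hlB.trans hN)
    exact ⟨α, β, p, q, hα, hβ, hp ▸ hA, by rw [← hp, ← hq]; exact hAB⟩
  choose α β p q hα hβ hne hrel using hrep
  obtain ⟨α0, -, hα0⟩ := ultra_const 𝒰 α
    (Fintype.piFinset fun _ => Fintype.piFinset fun _ => ({-1, 0, 1} : Finset ℤ)) (by
      intro n
      rw [Fintype.mem_piFinset]
      intro i
      rw [Fintype.mem_piFinset]
      exact hα n i)
  obtain ⟨β0, -, hβ0⟩ := ultra_const 𝒰 β
    (Fintype.piFinset fun _ => Fintype.piFinset fun _ => ({-1, 0, 1} : Finset ℤ)) (by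
      intro n
      rw [Fintype.mem_piFinset]
      intro i
      rw [Fintype.mem_piFinset]
      exact hβ n i)
  -- generic limit
  obtain ⟨v, hv⟩ : ∃ v : ∀ n, Fin N0 × (Fin N ⊕ Fin N) → (Fin (k n) → ℤ), ∀ n t, v n t =
      Sum.elim (fun j => iot (p n t.1 j)) (fun j => iot (q n t.1 j)) t.2 := ⟨_, fun _ _ => rfl⟩
  obtain ⟨P, hP⟩ : ∃ P : ∀ n, (Fin N0 × (Fin N ⊕ Fin N) → ℤ) →+ (Fin (k n) → ℤ), ∀ n t,
      P n (Pi.single t 1) = v n t := by
    refine ⟨fun n => (Fintype.linearCombination ℤ (v n)).toAddMonoidHom, fun n t => ?_⟩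
    change Fintype.linearCombination ℤ (v n) (Pi.single t 1) = v n t
    rw [Fintype.linearCombination_apply_single, one_smul]
  obtain ⟨d, π, σ, hσ1, hσ2⟩ := exists_generic 𝒰 k P
  obtain ⟨u, q', hq'⟩ := exists_shift' fun t : Fin N0 × (Fin N ⊕ Fin N) => π (Pi.single t 1)
  have hcore : ∀ i, ∃ B1 : MvPolynomial (Fin d) ℤ, B1 ≠ 0 ∧ mm B1 = y i ∧
      (∀ G : MvPolynomial (Fin d) ℤ, Irreducible G → G ∣ B1 →
        (∃ w : Fin d →₀ ℕ, G ∣ MvPolynomial.monomial w (1 : ℤ)) ∨ ¬ Recip G) ∧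
      (∀ᶠ n in (𝒰 : Filter ℕ), mm (g n i) = mA (σ n) B1) ∧
      ∀ᶠ n in (𝒰 : Filter ℕ), VF (g n i) ≤ (VF B1).map (lq (σ n)) := by
    intro i
    obtain ⟨A, hA⟩ : ∃ A : MvPolynomial (Fin d) ℤ, A =
        ∑ j, MvPolynomial.monomial (q' (i, Sum.inl j)) (α0 i j) := ⟨_, rfl⟩
    obtain ⟨B, hB⟩ : ∃ B : MvPolynomial (Fin d) ℤ, B =
        ∑ j, MvPolynomial.monomial (q' (i, Sum.inr j)) (β0 i j) := ⟨_, rfl⟩
    have hSA : ∀ᶠ n in (𝒰 : Filter ℕ), SP (σ n) A = mo (σ n (iot u)) *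
        JJ (k n) (∑ j, MvPolynomial.monomial (p n i j) (α n i j)) := by
      filter_upwards [hσ1, hα0] with n h1 h2
      rw [hA, SP_sum, JJ_sum, mo_mul_sum]
      refine sum_congr rfl fun j _ => ?_
      rw [hq', map_add, ← h1, hP, hv, h2]
      rfl
    have hSB : ∀ᶠ n in (𝒰 : Filter ℕ), SP (σ n) B = mo (σ n (iot u)) *
        JJ (k n) (∑ j, MvPolynomial.monomial (q n i j) (β n i j)) := by
      filter_upwards [hσ1, hβ0] with n h1 h2
      rw [hB, SP_sum, JJ_sum, mo_mul_sum]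
      refine sum_congr rfl fun j _ => ?_
      rw [hq', map_add, ← h1, hP, hv, h2]
      rfl
    have hR : ∀ᶠ n in (𝒰 : Filter ℕ),
        SP (σ n) A * JJ _ (rv (g n i)) = SP (σ n) B * JJ _ (g n i) := by
      filter_upwards [hSA, hSB] with n h1 h2
      rw [h1, h2, mul_assoc, mul_assoc, ← map_mul, ← map_mul, hrel]
    have hA0 : A ≠ 0 := by
      intro h0
      obtain ⟨n, hn⟩ := hSA.exists
      rw [h0, map_zero] at hn
      exact mul_ne_zero (mo_ne _) (JJ_ne (hne n i)) hn.symm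
    have hB0 : B ≠ 0 := by
      intro h0
      obtain ⟨n, hn, hn'⟩ := (hSA.and hR).exists
      rw [h0, map_zero, zero_mul, hn] at hn'
      exact mul_ne_zero (mul_ne_zero (mo_ne _) (JJ_ne (hne n i)))
        (JJ_ne (rv_ne_zero (hg0 n i))) hn'
    exact core3 (F := fun n => g n i) hσ2 (Eventually.of_forall fun n => hcop n i) hA0 hB0 hR (hy i)
  choose B1 hB1 hB2 hB3 hB4 hB5 using hcore
  have hc0' : (c0 : ℤ) ≠ 0 := by
    have := (Finset.mem_Icc.mp hc0).1
    exact_mod_cast (by omega : c0 ≠ 0)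
  have hCne : (MvPolynomial.C (c0 : ℤ) : MvPolynomial (Fin d) ℤ) ≠ 0 := by
    rwa [Ne, MvPolynomial.C_eq_zero]
  have hPne : (∏ i, B1 i) ≠ 0 := prod_ne_zero_iff.mpr fun i _ => hB1 i
  refine ⟨d, MvPolynomial.C (c0 : ℤ) * ∏ i, B1 i, mul_ne_zero hCne hPne, ?_, ?_, ?_,
    fun r hr hneμ => ?_⟩
  · intro H hH hd hpos
    have hprime := UniqueFactorizationMonoid.irreducible_iff_prime.mp hH
    rcases hprime.dvd_or_dvd hd with h1 | h1
    · exact Or.inr (eq_C_of_dvd_C hc0' h1)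
    · obtain ⟨i, -, hi⟩ := (hprime.dvd_finsetProd_iff _).mp h1
      rcases hB3 i H hH hi with ⟨w, hw⟩ | h2
      · exact absurd hw (not_dvd_mono hpos w)
      · exact Or.inl h2
  · rw [mm_mul hCne hPne, mm_C, mm_prod _ _ fun i _ => hB1 i, hμeq]
    simp only [hB2]
    congr 2
    rw [Int.cast_natCast, abs_of_nonneg (Nat.cast_nonneg _)]
  · have hev : ∀ᶠ n in (𝒰 : Filter ℕ), InM (MvPolynomial.C (c0 : ℤ) * ∏ i, B1 i) (mm (F n)) := by
      filter_upwards [hcc, eventually_all.mpr hB4, eventually_all.mpr fun i =>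
        ev_inj_exp hσ2 (B1 i).support] with n h1 h2 h3
      refine ⟨_, σ n, ?_, ?_⟩
      · rw [map_mul, map_prod]
        refine mul_ne_zero ?_ (prod_ne_zero_iff.mpr fun i _ => SP_ne_zero (σ n) (hB1 i) (h3 i))
        refine SP_ne_zero (σ n) hCne fun m hm m' hm' _ => ?_
        rw [show (MvPolynomial.C (c0 : ℤ) : MvPolynomial (Fin d) ℤ) =
          MvPolynomial.monomial 0 (c0 : ℤ) from rfl] at hm hm'
        have e1 := Finset.mem_singleton.mp (MvPolynomial.support_monomial_subset hm)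
        have e2 := Finset.mem_singleton.mp (MvPolynomial.support_monomial_subset hm')
        rw [e1, e2]
      rw [hsum n, h1, mA_prod (σ n) hc0' B1 hB1 h3]
      congr 1
      exact sum_congr rfl fun i _ => h2 i
    refine Nat.frequently_atTop_iff_infinite.mp fun hnot => ?_
    exact (hev.and (h𝒰 hnot)).exists.elim fun n hn => hn.2 hn.1
  · obtain ⟨W, hW⟩ : ∃ W : Submodule ℚ (Fin d → ℚ), W = ⨆ i, VF (B1 i) := ⟨_, rfl⟩
    have hWN : W ≤ NS (MvPolynomial.C (c0 : ℤ) * ∏ i, B1 i) := by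
      rw [hW]
      exact iSup_le fun i => VF_le_NS' (hB1 i)
        ((Finset.dvd_prod_of_mem B1 (mem_univ i)).mul_left _) (hB3 i)
    by_contra hcon
    have hWr : Module.finrank ℚ W ≤ r := by
      have h1 := Submodule.finrank_mono hWN
      have h2 : jd (MvPolynomial.C (c0 : ℤ) * ∏ i, B1 i) =
        Module.finrank ℚ (NS (MvPolynomial.C (c0 : ℤ) * ∏ i, B1 i)) := rfl
      omega
    obtain ⟨n, hn1, hn2, hn3⟩ := (hcc.and ((eventually_all.mpr hB4).and
      (eventually_all.mpr hB5))).exists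
    have h1 : NS (F n) ≤ W.map (lq (σ n)) := by
      refine (hNS n).trans (iSup_le fun i => (hn3 i).trans (Submodule.map_mono ?_))
      rw [hW]
      exact le_iSup (fun i => VF (B1 i)) i
    have h2 : r ≤ Module.finrank ℚ (W.map (lq (σ n))) := (hr n).trans (Submodule.finrank_mono h1)
    have hinj := inj_of_finrank (σ n) (hWr.trans h2)
    apply hneμ n
    rw [hsum n, hn1, hμeq]
    congr 1
    refine sum_congr rfl fun i _ => ?_
    rw [hn2 i, ← hB2 i]
    refine mA_eq_mm (hB1 i) (σ n) fun x hx h0 => hinj x ?_ h0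
    rw [hW]
    exact (le_iSup (fun i => VF (B1 i)) i) hx

end Pool.Agent.H87.DR
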