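import Pool.Agent.H87.DR.Lim2

/-!
# Derived sets, module Sets: the derived sets of the set of nonreciprocal measures
-/

set_option autoImplicit false

open Finset Filter Topology MeasureTheory

namespace Pool.Agent.H87.DR

open Pool.Agent.H87.MM Pool.Agent.H87.BZ

variable {n d : ℕ}

/-- the measures of polynomials without reciprocal factors of joint dimension at least `r` -/
def LV (r : ℕ) : Set ℝ :=
  {x | ∃ (d : ℕ) (G : MvPolynomial (Fin d) ℤ), G ≠ 0 ∧ Cl G ∧ r ≤ jd G ∧ mm G = x}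

theorem LV_anti {r s : ℕ} (h : r ≤ s) : LV s ⊆ LV r := by
  rintro x ⟨d, G, h1, h2, h3, h4⟩
  exact ⟨d, G, h1, h2, h.trans h3, h4⟩

theorem exists_seq {A : Set ℝ} {x : ℝ} (h : x ∈ derivedSet A) :
    ∃ u : ℕ → ℝ, (∀ n, u n ∈ A ∧ u n ≠ x) ∧ Tendsto u atTop (𝓝 x) := by
  rw [mem_derivedSet, accPt_principal_iff_clusterPt, ← mem_closure_iff_clusterPt,
    mem_closure_iff_seq_limit] at h
  obtain ⟨u, hu, hlim⟩ := h
  exact ⟨u, fun n => ⟨(hu n).1, (hu n).2⟩, hlim⟩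

theorem derived_LV (r : ℕ) : derivedSet (LV r) ⊆ LV (r + 1) := by
  intro x hx
  obtain ⟨u, hu, hlim⟩ := exists_seq hx
  choose k F h1 h2 h3 h4 using fun n => (hu n).1
  obtain ⟨d, G, hG, hcl, hmm, -, hdim⟩ := limit_all k F h1 h2 (by simpa only [h4] using hlim)
  exact ⟨d, G, hG, hcl, hdim r h3 (fun n => by rw [h4]; exact (hu n).2), hmm⟩

theorem closed_LV (r : ℕ) : IsClosed (LV r) := by
  rw [isClosed_iff_derivedSet_subset]
  exact (derived_LV r).trans (LV_anti (Nat.le_succ r))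

/-- joint dimension zero: the logarithm of an integer -/
theorem mm_of_jd_zero {F : MvPolynomial (Fin n) ℤ} (hF : F ≠ 0) (hcl : Cl F) (h0 : jd F = 0) :
    ∃ c : ℕ, 1 ≤ c ∧ mm F = Real.log c := by
  obtain ⟨c, s, hc, hs, hsum, -, hst⟩ := decomp2 hF hcl
  refine ⟨c, hc, ?_⟩
  have h1 : s = 0 := by
    rcases s.empty_or_exists_mem with h | ⟨G, hG⟩
    · exact h
    · exfalso
      obtain ⟨h2, h3⟩ := hs G hG
      have h4 := VF_le_NS h2 (hst G hG) h3
      have h5 := Submodule.finrank_mono h4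
      have h6 := dimF_pos h3
      rw [dimF_eq] at h6
      unfold jd at h0
      omega
  rw [hsum, h1]
  simp

theorem derived_log : derivedSet {x : ℝ | ∃ c : ℕ, 1 ≤ c ∧ x = Real.log c} = ∅ := by
  rw [Set.eq_empty_iff_forall_notMem]
  intro x hx
  obtain ⟨u, hu, hlim⟩ := exists_seq hx
  have hfin : {y : ℝ | (∃ c : ℕ, 1 ≤ c ∧ y = Real.log c) ∧ y ≤ x + 1 ∧ y ≠ x}.Finite := by
    refine ((Finset.Icc 1 ⌊Real.exp (x + 1)⌋₊).finite_toSet.image fun c : ℕ => Real.log c).subset ?_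
    rintro y ⟨⟨c, hc, rfl⟩, hy, -⟩
    refine ⟨c, ?_, rfl⟩
    rw [Finset.mem_coe, Finset.mem_Icc]
    refine ⟨hc, ?_⟩
    rw [Nat.le_floor_iff (Real.exp_pos _).le]
    rwa [Real.log_le_iff_le_exp (by exact_mod_cast hc)] at hy
  have h1 : x ∈ closure {y : ℝ | (∃ c : ℕ, 1 ≤ c ∧ y = Real.log c) ∧ y ≤ x + 1 ∧ y ≠ x} := by
    refine mem_closure_of_tendsto hlim ?_
    have h2 : ∀ᶠ n in atTop, u n < x + 1 := (tendsto_order.mp hlim).2 _ (by linarith)
    filter_upwards [h2] with n hn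
    exact ⟨(hu n).1, hn.le, (hu n).2⟩
  rw [hfin.isClosed.closure_eq] at h1
  exact h1.2.2 rfl

theorem derived_LV_zero : derivedSet (LV 0) ⊆ LV 2 := by
  have h1 : LV 0 ⊆ LV 1 ∪ {x : ℝ | ∃ c : ℕ, 1 ≤ c ∧ x = Real.log c} := by
    rintro x ⟨d, G, hG, hcl, -, hmm⟩
    rcases Nat.eq_zero_or_pos (jd G) with h0 | h0
    · obtain ⟨c, hc, h2⟩ := mm_of_jd_zero hG hcl h0
      exact Or.inr ⟨c, hc, by rw [← hmm, h2]⟩
    · exact Or.inl ⟨d, G, hG, hcl, h0, hmm⟩
  refine (derivedSet_mono _ _ h1).trans ?_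
  rw [derivedSet_union, derived_log, Set.union_empty]
  exact derived_LV 1

theorem derived_iter (k : ℕ) : derivedSet^[k + 1] (LV 0) ⊆ LV (k + 2) := by
  induction k with
  | zero => exact derived_LV_zero
  | succ k ih =>
    rw [Function.iterate_succ_apply']
    exact (derivedSet_mono _ _ ih).trans (derived_LV (k + 2))

theorem LV_bound {r : ℕ} {x : ℝ} (hx : x ∈ LV r) : (r : ℝ) ≤ 4 * Real.exp (4 * x) := by
  obtain ⟨d, G, hG, -, hr, rfl⟩ := hx
  refine le_trans ?_ (jd_bound hG)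
  exact_mod_cast hr

end Pool.Agent.H87.DR
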