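import Pool.Agent.H87.DR.Core3

/-!
# Short multiples with a cofactor of measure zero
-/

set_option autoImplicit false

open Finset Filter Topology MeasureTheory

namespace Pool.Agent.H87.DR

open Pool.Agent.H87.MM Pool.Agent.H87.BZ

variable {n d : ℕ}

theorem exists_poly' (σ : (Fin d → ℤ) →+ (Fin n → ℤ)) (A B : MvPolynomial (Fin d) ℤ) :
    ∃ (z : Fin n →₀ ℕ) (P Q : MvPolynomial (Fin n) ℤ), JJ n P = mo (iot z) * SP σ A ∧
      JJ n Q = mo (iot z) * SP σ B ∧ len P ≤ len A ∧ len Q ≤ len B := by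
  classical
  obtain ⟨z, hz⟩ : ∃ z : Fin n →₀ ℕ, ∀ i, z i =
      ∑ m ∈ A.support ∪ B.support, (σ (iot m) i).natAbs :=
    ⟨Finsupp.equivFunOnFinite.symm fun i => ∑ m ∈ A.support ∪ B.support, (σ (iot m) i).natAbs,
      fun i => rfl⟩
  obtain ⟨q, hq⟩ : ∃ q : (Fin d →₀ ℕ) → (Fin n →₀ ℕ), ∀ m i, q m i =
      ((z i : ℤ) + σ (iot m) i).toNat :=
    ⟨fun m => Finsupp.equivFunOnFinite.symm fun i => ((z i : ℤ) + σ (iot m) i).toNat,
      fun m i => rfl⟩
  have hq2 : ∀ m ∈ A.support ∪ B.support, iot (q m) = iot z + σ (iot m) := by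
    intro m hm
    funext i
    have h1 : (σ (iot m) i).natAbs ≤ ∑ m ∈ A.support ∪ B.support, (σ (iot m) i).natAbs :=
      single_le_sum (f := fun m => (σ (iot m) i).natAbs) (fun _ _ => Nat.zero_le _) hm
    rw [← hz] at h1
    simp only [iot, Pi.add_apply, hq]
    omega
  have key : ∀ P : MvPolynomial (Fin d) ℤ, P.support ⊆ A.support ∪ B.support →
      JJ n (∑ m ∈ P.support, MvPolynomial.monomial (q m) (P.coeff m)) = mo (iot z) * SP σ P := by
    intro P hP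
    rw [JJ_sum, SP_eq_sum, mo_mul_sum]
    exact sum_congr rfl fun m hm => by rw [hq2 m (hP hm)]
  exact ⟨z, _, _, key A subset_union_left, key B subset_union_right, len_sum_le _ _ _,
    len_sum_le _ _ _⟩

/-- the cofactor of measure zero along a sequence -/
theorem slot2 {𝒰 : Ultrafilter ℕ} {k : ℕ → ℕ}
    {σ : ∀ n, (Fin d → ℤ) →+ (Fin (k n) → ℤ)} {F : ∀ n, MvPolynomial (Fin (k n)) ℤ}
    (hσ : ∀ x, x ≠ 0 → ∀ᶠ n in (𝒰 : Filter ℕ), σ n x ≠ 0)
    (hF : ∀ᶠ n in (𝒰 : Filter ℕ), Cop (F n)) {A B : MvPolynomial (Fin d) ℤ} (hA : A ≠ 0)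
    (hB : B ≠ 0)
    (hrel : ∀ᶠ n in (𝒰 : Filter ℕ), SP (σ n) A * JJ _ (rv (F n)) = SP (σ n) B * JJ _ (F n)) :
    ∃ K : ℝ, ∀ᶠ n in (𝒰 : Filter ℕ), ∃ e : MvPolynomial (Fin (k n)) ℤ, e ≠ 0 ∧ mm e = 0 ∧
      len (F n * e) ≤ K := by
  classical
  obtain ⟨A1, B1, c, hcop, hcA, hcB⟩ := UniqueFactorizationMonoid.exists_reduced_factors A hA B
  have hc0 : c ≠ 0 := by
    rintro rfl
    rw [zero_mul] at hcA
    exact hA hcA.symm
  have hA1 : A1 ≠ 0 := by
    rintro rfl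
    rw [mul_zero] at hcA
    exact hA hcA.symm
  have hB1 : B1 ≠ 0 := by
    rintro rfl
    rw [mul_zero] at hcB
    exact hB hcB.symm
  have hrel1 : ∀ᶠ n in (𝒰 : Filter ℕ),
      SP (σ n) A1 * JJ _ (rv (F n)) = SP (σ n) B1 * JJ _ (F n) := by
    filter_upwards [hrel, ev_inj_exp hσ c.support] with n h1 h2
    have h3 := SP_ne_zero (σ n) hc0 h2
    rw [← hcA, ← hcB, map_mul, map_mul, mul_assoc, mul_assoc] at h1
    exact mul_left_cancel₀ h3 h1
  obtain ⟨C, hC⟩ := slot_aux hA1 hB1 hcop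
  obtain ⟨Z, hZ⟩ : ∃ Z : Finset (Fin d → ℤ), Z =
      Fintype.piFinset (fun _ => Finset.Icc (-(C : ℤ)) (C : ℤ)) := ⟨_, rfl⟩
  refine ⟨len A1, ?_⟩
  filter_upwards [hF, hrel1, ev_inj_box hσ Z, ev_inj_exp hσ A1.support,
    ev_inj_exp hσ B1.support] with n h1 h2 h3 h4 h5
  obtain ⟨z, P, Q, hP, hQ, hlP, -⟩ := exists_poly' (σ n) A1 B1
  have hP0 : P ≠ 0 := by
    rintro rfl
    rw [map_zero] at hP
    exact mul_ne_zero (mo_ne _) (SP_ne_zero (σ n) hA1 h4) hP.symm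
  have hQ0 : Q ≠ 0 := by
    rintro rfl
    rw [map_zero] at hQ
    exact mul_ne_zero (mo_ne _) (SP_ne_zero (σ n) hB1 h5) hQ.symm
  have hPQ : P * rv (F n) = Q * F n := by
    refine JJ_injective ?_
    rw [map_mul, map_mul, hP, hQ, mul_assoc, mul_assoc, h2]
  obtain ⟨e, he⟩ : F n ∣ P := h1.2 P (hPQ ▸ dvd_mul_left _ _)
  have he0 : e ≠ 0 := by
    rintro rfl
    rw [mul_zero] at he
    exact hP0 he
  have hQe : Q = e * rv (F n) := by
    have : F n * Q = F n * (e * rv (F n)) := by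
      rw [mul_comm, ← hPQ, he]
      ring
    exact mul_left_cancel₀ h1.1 this
  have hme : mm e = 0 := by
    refine hC (k n) (σ n) (fun b hb hbC hb0 => hb (h3 b ?_ hb0)) (iot z) P Q e hP0 hQ0 hP hQ
      ⟨F n, by rw [he, mul_comm]⟩ ⟨rv (F n), hQe⟩
    rw [hZ, Fintype.mem_piFinset]
    intro j
    rw [Finset.mem_Icc]
    exact abs_le.mp (hbC j)
  exact ⟨e, he0, hme, by rw [← he]; exact hlP⟩

/-- a polynomial of bounded measure which is coprime to its reversal is, up to a factor of measure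
zero, a polynomial of bounded length -/
theorem exact_cop (C : ℝ) : ∃ K : ℝ, ∀ (n : ℕ) (F : MvPolynomial (Fin n) ℤ), Cop F → mm F ≤ C →
    ∃ e : MvPolynomial (Fin n) ℤ, e ≠ 0 ∧ mm e = 0 ∧ len (F * e) ≤ K := by
  classical
  by_contra hcon
  push Not at hcon
  choose k F hcop hmC hlarge using fun j : ℕ => hcon (j : ℝ)
  obtain ⟨𝒰, h𝒰⟩ : ∃ 𝒰 : Ultrafilter ℕ, (𝒰 : Filter ℕ) ≤ atTop :=
    ⟨Ultrafilter.of atTop, Ultrafilter.of_le _⟩
  obtain ⟨K, hK⟩ := short_pair C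
  obtain ⟨N, hN⟩ := exists_nat_ge K
  have hrep : ∀ n, ∃ (α β : Fin N → ℤ) (p q : Fin N → (Fin (k n) →₀ ℕ)),
      (∀ j, α j ∈ ({-1, 0, 1} : Finset ℤ)) ∧ (∀ j, β j ∈ ({-1, 0, 1} : Finset ℤ)) ∧
      (∑ j, MvPolynomial.monomial (p j) (α j)) ≠ 0 ∧
      (∑ j, MvPolynomial.monomial (p j) (α j)) * rv (F n) =
        (∑ j, MvPolynomial.monomial (q j) (β j)) * F n := by
    intro n
    obtain ⟨A, B, hA, hlA, hlB, hAB⟩ := hK (k n) (F n) (hcop n).1 (hmC n)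
    obtain ⟨α, p, hα, hp⟩ := poly_repr N A (hlA.trans hN)
    obtain ⟨β, q, hβ, hq⟩ := poly_repr N B (hlB.trans hN)
    exact ⟨α, β, p, q, hα, hβ, hp ▸ hA, by rw [← hp, ← hq]; exact hAB⟩
  choose α β p q hα hβ hne hrel using hrep
  obtain ⟨α0, -, hα0⟩ := ultra_const 𝒰 α
    (Fintype.piFinset fun _ => ({-1, 0, 1} : Finset ℤ)) (by
      intro n
      rw [Fintype.mem_piFinset]
      exact hα n)
  obtain ⟨β0, -, hβ0⟩ := ultra_const 𝒰 β
    (Fintype.piFinset fun _ => ({-1, 0, 1} : Finset ℤ)) (by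
      intro n
      rw [Fintype.mem_piFinset]
      exact hβ n)
  obtain ⟨v, hv⟩ : ∃ v : ∀ n, (Fin N ⊕ Fin N) → (Fin (k n) → ℤ), ∀ n t, v n t =
      Sum.elim (fun j => iot (p n j)) (fun j => iot (q n j)) t := ⟨_, fun _ _ => rfl⟩
  obtain ⟨P, hP⟩ : ∃ P : ∀ n, (Fin N ⊕ Fin N → ℤ) →+ (Fin (k n) → ℤ), ∀ n t,
      P n (Pi.single t 1) = v n t := by
    refine ⟨fun n => (Fintype.linearCombination ℤ (v n)).toAddMonoidHom, fun n t => ?_⟩
    change Fintype.linearCombination ℤ (v n) (Pi.single t 1) = v n t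
    rw [Fintype.linearCombination_apply_single, one_smul]
  obtain ⟨d, π, σ, hσ1, hσ2⟩ := exists_generic 𝒰 k P
  obtain ⟨u, q', hq'⟩ := exists_shift' fun t : Fin N ⊕ Fin N => π (Pi.single t 1)
  obtain ⟨A, hA⟩ : ∃ A : MvPolynomial (Fin d) ℤ, A =
      ∑ j, MvPolynomial.monomial (q' (Sum.inl j)) (α0 j) := ⟨_, rfl⟩
  obtain ⟨B, hB⟩ : ∃ B : MvPolynomial (Fin d) ℤ, B =
      ∑ j, MvPolynomial.monomial (q' (Sum.inr j)) (β0 j) := ⟨_, rfl⟩
  have hSA : ∀ᶠ n in (𝒰 : Filter ℕ), SP (σ n) A = mo (σ n (iot u)) *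
      JJ (k n) (∑ j, MvPolynomial.monomial (p n j) (α n j)) := by
    filter_upwards [hσ1, hα0] with n h1 h2
    rw [hA, SP_sum, JJ_sum, mo_mul_sum]
    refine sum_congr rfl fun j _ => ?_
    rw [hq', map_add, ← h1, hP, hv, h2]
    rfl
  have hSB : ∀ᶠ n in (𝒰 : Filter ℕ), SP (σ n) B = mo (σ n (iot u)) *
      JJ (k n) (∑ j, MvPolynomial.monomial (q n j) (β n j)) := by
    filter_upwards [hσ1, hβ0] with n h1 h2
    rw [hB, SP_sum, JJ_sum, mo_mul_sum]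
    refine sum_congr rfl fun j _ => ?_
    rw [hq', map_add, ← h1, hP, hv, h2]
    rfl
  have hR : ∀ᶠ n in (𝒰 : Filter ℕ),
      SP (σ n) A * JJ _ (rv (F n)) = SP (σ n) B * JJ _ (F n) := by
    filter_upwards [hSA, hSB] with n h1 h2
    rw [h1, h2, mul_assoc, mul_assoc, ← map_mul, ← map_mul, hrel]
  have hA0 : A ≠ 0 := by
    intro h0
    obtain ⟨n, hn⟩ := hSA.exists
    rw [h0, map_zero] at hn
    exact mul_ne_zero (mo_ne _) (JJ_ne (hne n)) hn.symm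
  have hB0 : B ≠ 0 := by
    intro h0
    obtain ⟨n, hn, hn'⟩ := (hSA.and hR).exists
    rw [h0, map_zero, zero_mul, hn] at hn'
    exact mul_ne_zero (mul_ne_zero (mo_ne _) (JJ_ne (hne n)))
      (JJ_ne (rv_ne_zero (hcop n).1)) hn'
  obtain ⟨K1, hK1⟩ := slot2 (F := F) hσ2 (Eventually.of_forall fun n => hcop n) hA0 hB0 hR
  obtain ⟨N1, hN1⟩ := exists_nat_ge K1
  obtain ⟨n, ⟨e, he0, hme, hle⟩, hn2⟩ := (hK1.and (h𝒰 (eventually_ge_atTop N1))).exists
  have h1 := hlarge n e he0 hme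
  have h2 : (N1 : ℝ) ≤ n := by exact_mod_cast hn2
  linarith

/-- products of nonreciprocal polynomials of bounded measure are, up to a factor of measure zero,
polynomials of bounded length -/
theorem exact_product (C : ℝ) : ∃ K : ℝ, ∀ (n : ℕ) (F P : MvPolynomial (Fin n) ℤ), F ≠ 0 →
    mm F ≤ C → P ∣ F → (∀ G : MvPolynomial (Fin n) ℤ, Irreducible G → G ∣ P → ¬ Recip G) →
    ∃ e : MvPolynomial (Fin n) ℤ, e ≠ 0 ∧ mm e = 0 ∧ len (P * e) ≤ K := by
  obtain ⟨K0, hK0⟩ := exact_cop C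
  obtain ⟨K, hK⟩ : ∃ K, K = max K0 1 := ⟨_, rfl⟩
  have hK1 : 1 ≤ K := hK ▸ le_max_right _ _
  obtain ⟨N, hN⟩ := exists_nat_gt (12 * C)
  refine ⟨K ^ N, fun n F P hF hC hP hirr => ?_⟩
  have hP0 : P ≠ 0 := by
    rintro rfl
    exact hF (zero_dvd_iff.mp hP)
  have key : ∀ s : Multiset (MvPolynomial (Fin n) ℤ), (∀ G ∈ s, Irreducible G ∧ ¬ Recip G) →
      s.prod ∣ F → (s.card : ℝ) * (1 / 12) ≤ mm s.prod ∧ ∃ e : MvPolynomial (Fin n) ℤ, e ≠ 0 ∧
        mm e = 0 ∧ len (s.prod * e) ≤ K ^ s.card := by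
    intro s
    induction s using Multiset.induction_on with
    | empty =>
      intro _ _
      rw [Multiset.prod_zero, mm_one]
      refine ⟨by simp, 1, one_ne_zero, mm_one, ?_⟩
      simpa using len_one_le (n := n)
    | cons G s ih =>
      intro hs hd
      rw [Multiset.prod_cons] at hd ⊢
      obtain ⟨hG, hGr⟩ := hs G (Multiset.mem_cons_self _ _)
      have hne := ne_zero_of_dvd_ne_zero hF hd
      obtain ⟨h1, e, he0, hme, hle⟩ := ih (fun G' hG' => hs G' (Multiset.mem_cons_of_mem hG'))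
        ((dvd_mul_left _ _).trans hd)
      obtain ⟨e', he'0, hme', hle'⟩ := hK0 n G (cop_of (Or.inr ⟨hG, hGr⟩))
        ((mm_le_of_dvd hF ((dvd_mul_right _ _).trans hd)).trans hC)
      refine ⟨?_, e' * e, mul_ne_zero he'0 he0, by rw [mm_mul he'0 he0, hme, hme', add_zero], ?_⟩
      · rw [mm_mul (left_ne_zero_of_mul hne) (right_ne_zero_of_mul hne), Multiset.card_cons]
        have := mm_lower hG hGr
        push_cast
        linarith
      · have h2 : G * s.prod * (e' * e) = (G * e') * (s.prod * e) := by ring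
        rw [h2]
        refine (len_mul_le _ _).trans ?_
        rw [Multiset.card_cons, pow_succ, mul_comm]
        exact mul_le_mul hle (hle'.trans (hK ▸ le_max_left _ _)) (len_nonneg _) (by positivity)
  obtain ⟨s, hs, u, hu⟩ := WfDvdMonoid.exists_factors P hP0
  have hsP : s.prod ∣ P := ⟨u, hu.symm⟩
  obtain ⟨h1, e, he0, hme, hle⟩ := key s (fun G hG => ⟨hs G hG,
    hirr G (hs G hG) ((Multiset.dvd_prod hG).trans hsP)⟩) (hsP.trans hP)
  obtain ⟨v, hv⟩ := u.isUnit.exists_right_inv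
  have hv0 : v ≠ 0 := by
    rintro rfl
    rw [mul_zero] at hv
    exact zero_ne_one hv
  have hvu : IsUnit v := IsUnit.of_mul_eq_one u (by rw [mul_comm]; exact hv)
  refine ⟨v * e, mul_ne_zero hv0 he0, by rw [mm_mul hv0 he0, mm_unit hvu, hme, add_zero], ?_⟩
  have h2 : P * (v * e) = s.prod * e := by
    rw [← hu]
    calc s.prod * (u : MvPolynomial (Fin n) ℤ) * (v * e) =
        s.prod * e * ((u : MvPolynomial (Fin n) ℤ) * v) := by ring
      _ = s.prod * e := by rw [hv, mul_one]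
  rw [h2]
  refine hle.trans (pow_le_pow_right₀ hK1 ?_)
  have h2 := mm_le_of_dvd hF (hsP.trans hP)
  have h3 : (s.card : ℝ) < N := by linarith
  exact_mod_cast h3.le

end Pool.Agent.H87.DR
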