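import Pool.Agent.H87.BZ.Red

/-!
# Derived sets, module Span: the span of the differences of exponents
-/

set_option autoImplicit false

open Finset Filter Topology MeasureTheory

namespace Pool.Agent.H87.DR

open Pool.Agent.H87.MM Pool.Agent.H87.BZ

variable {n d : ℕ}

/-- the span of the differences of the exponents of `F` -/
def VF (F : MvPolynomial (Fin n) ℤ) : Submodule ℚ (Fin n → ℚ) :=
  Submodule.span ℚ {v : Fin n → ℚ | ∃ m ∈ F.support, ∃ m' ∈ F.support,
    v = fun i => (m i : ℚ) - (m' i : ℚ)}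

theorem dimF_eq (F : MvPolynomial (Fin n) ℤ) : dimF F = Module.finrank ℚ (VF F) := rfl

/-- rational vectors of integer vectors -/
def cq (n : ℕ) : (Fin n → ℤ) →+ (Fin n → ℚ) where
  toFun x i := (x i : ℚ)
  map_zero' := by funext i; simp
  map_add' x y := by funext i; simp

theorem cq_apply (x : Fin n → ℤ) (i : Fin n) : cq n x i = (x i : ℚ) := rfl

theorem cq_injective : Function.Injective (cq n) := by
  intro x y h
  funext i
  have := congrFun h i
  rw [cq_apply, cq_apply] at this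
  exact_mod_cast this

theorem sub_eq_cq (m m' : Fin n →₀ ℕ) :
    (fun i => (m i : ℚ) - (m' i : ℚ)) = cq n (iot m - iot m') := by
  funext i
  rw [cq_apply]
  simp [iot]

theorem mem_VF {F : MvPolynomial (Fin n) ℤ} {m m' : Fin n →₀ ℕ} (hm : m ∈ F.support)
    (hm' : m' ∈ F.support) : cq n (iot m - iot m') ∈ VF F := by
  rw [← sub_eq_cq]
  exact Submodule.subset_span ⟨m, hm, m', hm', rfl⟩

theorem VF_le {F : MvPolynomial (Fin n) ℤ} {W : Submodule ℚ (Fin n → ℚ)}
    (h : ∀ m ∈ F.support, ∀ m' ∈ F.support, cq n (iot m - iot m') ∈ W) : VF F ≤ W := by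
  refine Submodule.span_le.mpr ?_
  rintro _ ⟨m, hm, m', hm', rfl⟩
  rw [sub_eq_cq]
  exact h m hm m' hm'

theorem VF_le_of_dvd {P G : MvPolynomial (Fin n) ℤ} (hG : G ≠ 0) (h : P ∣ G) : VF P ≤ VF G := by
  classical
  refine VF_le fun m hm m' hm' => ?_
  by_contra hcon
  obtain ⟨f, hf, hker⟩ := Submodule.exists_le_ker_of_notMem hcon
  obtain ⟨g, hg⟩ := MvPolynomial.support_nonempty.mpr hG
  have h1 := const_of_dvd (f.toAddMonoidHom.comp (cq n)) hG h (r := f (cq n (iot g))) (by
    intro u hu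
    have h2 : f (cq n (iot u - iot g)) = 0 := hker (mem_VF hu hg)
    rw [map_sub, map_sub, sub_eq_zero] at h2
    exact h2)
  apply hf
  rw [map_sub, map_sub, sub_eq_zero]
  exact h1 m hm m' hm'

theorem VF_mul_le (P Q : MvPolynomial (Fin n) ℤ) : VF (P * Q) ≤ VF P ⊔ VF Q := by
  classical
  refine VF_le fun m hm m' hm' => ?_
  have h1 := MvPolynomial.support_mul P Q hm
  have h2 := MvPolynomial.support_mul P Q hm'
  obtain ⟨a, ha, b, hb, rfl⟩ := Finset.mem_add.mp h1
  obtain ⟨a', ha', b', hb', rfl⟩ := Finset.mem_add.mp h2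
  have h3 : iot (a + b) - iot (a' + b') = (iot a - iot a') + (iot b - iot b') := by
    rw [iot_add, iot_add]
    abel
  rw [h3, map_add]
  exact Submodule.add_mem_sup (mem_VF ha ha') (mem_VF hb hb')

theorem VF_monomial (m : Fin n →₀ ℕ) (c : ℤ) : VF (MvPolynomial.monomial m c) = ⊥ := by
  classical
  rw [eq_bot_iff]
  refine VF_le fun k hk k' hk' => ?_
  have h1 := Finset.mem_singleton.mp (MvPolynomial.support_monomial_subset hk)
  have h2 := Finset.mem_singleton.mp (MvPolynomial.support_monomial_subset hk')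
  rw [h1, h2, sub_self, map_zero]
  exact Submodule.zero_mem _

theorem VF_one : VF (1 : MvPolynomial (Fin n) ℤ) = ⊥ := VF_monomial 0 1

theorem VF_unit {u : MvPolynomial (Fin n) ℤ} (hu : IsUnit u) : VF u = ⊥ := by
  rw [eq_bot_iff, ← VF_one]
  exact VF_le_of_dvd one_ne_zero hu.dvd

theorem VF_rv_le (F : MvPolynomial (Fin n) ℤ) : VF (rv F) ≤ VF F := by
  classical
  refine VF_le fun m hm m' hm' => ?_
  have h1 := rv_coeff_ne (MvPolynomial.mem_support_iff.mp hm)
  have h2 := rv_coeff_ne (MvPolynomial.mem_support_iff.mp hm')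
  have h3 : dg F - m ∈ F.support := by
    rw [MvPolynomial.mem_support_iff, ← rv_coeff F h1]
    exact MvPolynomial.mem_support_iff.mp hm
  have h4 : dg F - m' ∈ F.support := by
    rw [MvPolynomial.mem_support_iff, ← rv_coeff F h2]
    exact MvPolynomial.mem_support_iff.mp hm'
  have h5 : iot m - iot m' = iot (dg F - m') - iot (dg F - m) := by
    rw [iot_sub h1, iot_sub h2]
    abel
  rw [h5]
  exact mem_VF h4 h3

theorem le_VF_rv (F : MvPolynomial (Fin n) ℤ) : VF F ≤ VF (rv F) := by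
  classical
  refine VF_le fun m hm m' hm' => ?_
  have key : ∀ m ∈ F.support, dg F - m ∈ (rv F).support := by
    intro m hm
    rw [MvPolynomial.mem_support_iff, rv_coeff F tsub_le_self, fsub_sub (le_dg hm)]
    exact MvPolynomial.mem_support_iff.mp hm
  have h5 : iot m - iot m' = iot (dg F - m') - iot (dg F - m) := by
    rw [iot_sub (le_dg hm), iot_sub (le_dg hm')]
    abel
  rw [h5]
  exact mem_VF (key m' hm') (key m hm)

theorem VF_rv (F : MvPolynomial (Fin n) ℤ) : VF (rv F) = VF F :=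
  le_antisymm (VF_rv_le F) (le_VF_rv F)

/-- the rational extension of a homomorphism -/
noncomputable def lq (σ : (Fin d → ℤ) →+ (Fin n → ℤ)) : (Fin d → ℚ) →ₗ[ℚ] (Fin n → ℚ) :=
  Fintype.linearCombination ℚ fun i => cq n (σ (Pi.single i 1))

theorem lq_cq (σ : (Fin d → ℤ) →+ (Fin n → ℤ)) (x : Fin d → ℤ) :
    lq σ (cq d x) = cq n (σ x) := by
  classical
  have hx : x = ∑ i, x i • (Pi.single i 1 : Fin d → ℤ) := by
    funext j
    rw [Finset.sum_apply, Finset.sum_eq_single j]
    · simp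
    · intro b _ hb
      rw [Pi.smul_apply, Pi.single_eq_of_ne hb.symm, smul_zero]
    · intro hj
      exact absurd (mem_univ j) hj
  conv_rhs => rw [hx, map_sum, map_sum]
  unfold lq
  rw [Fintype.linearCombination_apply]
  refine sum_congr rfl fun i _ => ?_
  rw [map_zsmul, map_zsmul, cq_apply]
  funext j
  rw [Pi.smul_apply, Pi.smul_apply, smul_eq_mul, zsmul_eq_mul]

theorem VF_of_JJ (σ : (Fin d → ℤ) →+ (Fin n → ℤ)) {B : MvPolynomial (Fin d) ℤ}
    {Q : MvPolynomial (Fin n) ℤ} {z : Fin n → ℤ} (h : JJ n Q = mo z * SP σ B) :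
    VF Q ≤ (VF B).map (lq σ) := by
  classical
  have key : ∀ m ∈ Q.support, ∃ u ∈ B.support, iot m = z + σ (iot u) := by
    intro m hm
    have h1 : (JJ n Q).coeff (iot m) ≠ 0 := by
      have h2 : (lp Q).coeff (iot m) = ((Q.coeff m : ℤ) : ℂ) :=
        coeff_sum_eq _ (fun m => iot m) _ hm fun _ _ h => iot_injective h
      rw [JJ_eq_lp, h2]
      exact_mod_cast MvPolynomial.mem_support_iff.mp hm
    rw [h, SP_eq_sum, mo_mul_sum] at h1
    obtain ⟨u, hu, h3⟩ := coeff_sum_ne _ _ _ h1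
    exact ⟨u, hu, h3.symm⟩
  refine VF_le fun m hm m' hm' => ?_
  obtain ⟨u, hu, h1⟩ := key m hm
  obtain ⟨u', hu', h2⟩ := key m' hm'
  have h3 : iot m - iot m' = σ (iot u - iot u') := by
    rw [h1, h2, map_sub]
    abel
  rw [h3, ← lq_cq]
  exact Submodule.mem_map_of_mem (mem_VF hu hu')

end Pool.Agent.H87.DR
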